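import Mathlib

/-! # Sums over arithmetic progressions of functions of the blocks: the scaling lemma -/

set_option autoImplicit false

namespace Pool.Agent.V8H2.AP

open Finset

/-- The blocks (of length `unit`) of the terms of a progression. -/
def pat (K unit a d : ℕ) : Fin (K + 1) → ℕ := fun i => (a + i.val * d) / unit

theorem sum_range_mul (n q : ℕ) (f : ℕ → ℝ) :
    ∑ a ∈ range (n * q), f a = ∑ a ∈ range n, ∑ u ∈ range q, f (a * q + u) := by
  induction n with
  | zero => simp
  | succ n ih => rw [Nat.succ_mul, sum_range_add, ih, sum_range_succ]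

theorem div_eq_of_good {t y c K : ℕ} (hc : c ≤ K) (h : y % t + K < t) : (y + c) / t = y / t := by
  have ht : 0 < t := by omega
  have h1 : y + c = (y % t + c) + t * (y / t) := by
    have := Nat.mod_add_div y t
    omega
  rw [h1, Nat.add_mul_div_left _ _ ht, Nat.div_eq_of_lt (by omega), zero_add]

/-- The pairs for which a term of the progression is near the end of a block. -/
def Bad (K L t : ℕ) : Finset (ℕ × ℕ) :=
  ((range (t * L)) ×ˢ (range (t * L))).filter fun p =>
    ∃ i : Fin (K + 1), t ≤ (p.1 + i.val * p.2) % t + K ∧ p.1 + i.val * p.2 < t * L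

theorem card_near (K L t : ℕ) (ht : 1 ≤ t) :
    ((range (t * L)).filter fun y => t ≤ y % t + K).card ≤ L * K := by
  have h : ((range (t * L)).filter fun y => t ≤ y % t + K).card ≤
      ((range L) ×ˢ (range K)).card := by
    refine Finset.card_le_card_of_injOn (fun y => (y / t, t - 1 - y % t)) ?_ ?_
    · intro y hy
      rw [mem_coe, mem_filter, mem_range] at hy
      have h1 := Nat.mod_lt y ht
      rw [mem_coe, mem_product, mem_range, mem_range]
      refine ⟨?_, ?_⟩
      · show y / t < L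
        exact Nat.div_lt_of_lt_mul hy.1
      · show t - 1 - y % t < K
        omega
    · intro y _ y' _ h
      simp only [Prod.mk.injEq] at h
      have h1 := Nat.mod_lt y ht
      have h2 := Nat.mod_lt y' ht
      have h3 : y % t = y' % t := by omega
      rw [← Nat.mod_add_div y t, ← Nat.mod_add_div y' t, h3, h.1]
  rwa [card_product, card_range, card_range] at h

theorem card_Bad (K L t : ℕ) (ht : 1 ≤ t) :
    (Bad K L t).card ≤ (K + 1) * (L * K * (t * L)) := by
  have h1 : Bad K L t ⊆ (univ : Finset (Fin (K + 1))).biUnion fun i =>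
      ((range (t * L)) ×ˢ (range (t * L))).filter fun p =>
        t ≤ (p.1 + i.val * p.2) % t + K ∧ p.1 + i.val * p.2 < t * L := by
    intro p hp
    rw [Bad, mem_filter] at hp
    obtain ⟨h, i, hi⟩ := hp
    rw [mem_biUnion]
    exact ⟨i, mem_univ i, mem_filter.2 ⟨h, hi⟩⟩
  refine (card_le_card h1).trans (card_biUnion_le.trans ?_)
  have h2 : ∀ i ∈ (univ : Finset (Fin (K + 1))),
      (((range (t * L)) ×ˢ (range (t * L))).filter fun p =>
        t ≤ (p.1 + i.val * p.2) % t + K ∧ p.1 + i.val * p.2 < t * L).card ≤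
        L * K * (t * L) := by
    intro i _
    have h3 : (((range (t * L)) ×ˢ (range (t * L))).filter fun p =>
        t ≤ (p.1 + i.val * p.2) % t + K ∧ p.1 + i.val * p.2 < t * L).card ≤
        (((range (t * L)).filter fun y => t ≤ y % t + K) ×ˢ (range (t * L))).card := by
      refine Finset.card_le_card_of_injOn (fun p => (p.1 + i.val * p.2, p.2)) ?_ ?_
      · intro p hp
        rw [mem_coe, mem_filter, mem_product, mem_range, mem_range] at hp
        rw [mem_coe, mem_product, mem_filter, mem_range, mem_range]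
        exact ⟨⟨hp.2.2, hp.2.1⟩, hp.1.2⟩
      · rintro ⟨a, d⟩ _ ⟨a', d'⟩ _ h
        simp only [Prod.mk.injEq] at h
        obtain ⟨h4, rfl⟩ := h
        rw [Prod.mk.injEq]
        exact ⟨by omega, rfl⟩
    rw [card_product, card_range] at h3
    exact h3.trans (Nat.mul_le_mul_right _ (card_near K L t ht))
  refine (sum_le_sum h2).trans ?_
  rw [sum_const, card_univ, Fintype.card_fin, smul_eq_mul]

theorem sum_range_mul2 (n q : ℕ) (f : ℕ → ℕ → ℝ) :
    ∑ a ∈ range (n * q), ∑ d ∈ range (n * q), f a d =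
      ∑ a ∈ range n, ∑ d ∈ range n, ∑ u ∈ range q, ∑ v ∈ range q, f (a * q + u) (d * q + v) := by
  rw [sum_range_mul]
  refine sum_congr rfl fun a _ => ?_
  rw [sum_congr rfl fun u _ => sum_range_mul n q (f (a * q + u))]
  exact sum_comm

theorem mul_add_mod' {a q u : ℕ} (hu : u < q) : (a * q + u) % q = u := by
  rw [mul_comm, Nat.mul_add_mod, Nat.mod_eq_of_lt hu]

theorem pat_box {K q t a d u v : ℕ} (hq : 1 ≤ q) (hu : u < q) (hv : v < q)
    (h : ∀ i : Fin (K + 1), (a + i.val * d) % t + K < t) :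
    pat K (q * t) (a * q + u) (d * q + v) = pat K t a d := by
  funext i
  unfold pat
  have h1 : a * q + u + i.val * (d * q + v) = (u + i.val * v) + q * (a + i.val * d) := by ring
  rw [← Nat.div_div_eq_div_mul, h1, Nat.add_mul_div_left _ _ hq, add_comm]
  apply div_eq_of_good _ (h i)
  have h2 : u + i.val * v < q * (K + 1) := by
    have h3 : i.val * v ≤ K * (q - 1) := Nat.mul_le_mul (by omega) (by omega)
    have h4 : K * (q - 1) + K = K * q := by
      rw [← Nat.mul_succ]
      congr 1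
      omega
    have h5 : q * (K + 1) = K * q + q := by ring
    omega
  have := Nat.div_lt_of_lt_mul h2
  omega

/-- **The box lemma.** -/
theorem box (K L q t : ℕ) (hK : 1 ≤ K) (hq : 1 ≤ q) (ht : 1 ≤ t) (B : ℝ)
    (R : ℕ → ℕ → (Fin (K + 1) → ℕ) → ℝ) (hR : ∀ u v b, |R u v b| ≤ B)
    (hL : ∀ u v b, L ≤ b (Fin.last K) → R u v b = 0) :
    |∑ a ∈ range (t * L * q), ∑ d ∈ range (t * L * q), R (a % q) (d % q) (pat K (q * t) a d) -
      ∑ a ∈ range (t * L), ∑ d ∈ range (t * L), ∑ u ∈ range q, ∑ v ∈ range q,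
        R u v (pat K t a d)| ≤ 2 * B * ((K + 1) * (L * K * L)) * q ^ 2 * t := by
  have hB : 0 ≤ B := (abs_nonneg _).trans (hR 0 0 0)
  rw [sum_range_mul2]
  have e1 : ∀ a d : ℕ, ∑ u ∈ range q, ∑ v ∈ range q, R ((a * q + u) % q) ((d * q + v) % q)
      (pat K (q * t) (a * q + u) (d * q + v)) =
      ∑ u ∈ range q, ∑ v ∈ range q, R u v (pat K (q * t) (a * q + u) (d * q + v)) := by
    intro a d
    refine sum_congr rfl fun u hu => sum_congr rfl fun v hv => ?_
    rw [mem_range] at hu hv
    rw [mul_add_mod' hu, mul_add_mod' hv]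
  simp_rw [e1]
  have e2 : ∀ f : ℕ → ℕ → ℝ, ∑ a ∈ range (t * L), ∑ d ∈ range (t * L), f a d =
      ∑ p ∈ (range (t * L)) ×ˢ (range (t * L)), f p.1 p.2 := fun f => (sum_product' _ _ _).symm
  rw [e2 fun a d => ∑ u ∈ range q, ∑ v ∈ range q,
      R u v (pat K (q * t) (a * q + u) (d * q + v)),
    e2 fun a d => ∑ u ∈ range q, ∑ v ∈ range q, R u v (pat K t a d), ← sum_sub_distrib]
  have key : ∀ p ∈ (range (t * L)) ×ˢ (range (t * L)),
      |(∑ u ∈ range q, ∑ v ∈ range q, R u v (pat K (q * t) (p.1 * q + u) (p.2 * q + v)) -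
        ∑ u ∈ range q, ∑ v ∈ range q, R u v (pat K t p.1 p.2))| ≤
      if p ∈ Bad K L t then 2 * B * q ^ 2 else 0 := by
    intro p hp
    split_ifs with hb
    · have h1 : ∀ S : ℕ → ℕ → ℝ, (∀ u v, |S u v| ≤ B) →
          |∑ u ∈ range q, ∑ v ∈ range q, S u v| ≤ B * q ^ 2 := by
        intro S hS
        refine (abs_sum_le_sum_abs _ _).trans ?_
        refine (sum_le_sum fun u _ => (abs_sum_le_sum_abs _ _).trans
          (sum_le_sum fun v _ => hS u v)).trans ?_
        simp only [sum_const, card_range, nsmul_eq_mul]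
        apply le_of_eq
        ring
      refine (abs_sub _ _).trans ?_
      have h2 := h1 (fun u v => R u v (pat K (q * t) (p.1 * q + u) (p.2 * q + v)))
        fun u v => hR _ _ _
      have h3 := h1 (fun u v => R u v (pat K t p.1 p.2)) fun u v => hR _ _ _
      linarith
    · apply le_of_eq
      rw [abs_eq_zero, sub_eq_zero]
      refine sum_congr rfl fun u hu => sum_congr rfl fun v hv => ?_
      rw [mem_range] at hu hv
      by_cases hlt : p.1 + K * p.2 < t * L
      · rw [pat_box hq hu hv]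
        intro i
        by_contra hc
        apply hb
        rw [Bad, mem_filter]
        refine ⟨hp, i, by omega, lt_of_le_of_lt ?_ hlt⟩
        have : i.val * p.2 ≤ K * p.2 := Nat.mul_le_mul_right _ (by omega)
        omega
      · rw [hL _ _ (pat K t p.1 p.2), hL]
        · unfold pat
          rw [Fin.val_last, Nat.le_div_iff_mul_le (by positivity)]
          have h1 : L * (q * t) ≤ q * (p.1 + K * p.2) := by
            calc L * (q * t) = q * (t * L) := by ring
              _ ≤ _ := Nat.mul_le_mul_left _ (not_lt.1 hlt)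
          have h2 : p.1 * q + u + K * (p.2 * q + v) = q * (p.1 + K * p.2) + (u + K * v) := by ring
          omega
        · unfold pat
          rw [Fin.val_last, Nat.le_div_iff_mul_le (by omega)]
          have := not_lt.1 hlt
          rwa [mul_comm] at this
  refine (abs_sum_le_sum_abs _ _).trans ((sum_le_sum key).trans ?_)
  rw [sum_ite_mem, sum_const, nsmul_eq_mul]
  have h1 : ((range (t * L)) ×ˢ (range (t * L)) ∩ Bad K L t).card ≤
      (K + 1) * (L * K * (t * L)) := (card_le_card inter_subset_right).trans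
        (card_Bad K L t ht)
  have h2 : (((range (t * L)) ×ˢ (range (t * L)) ∩ Bad K L t).card : ℝ) ≤
      (K + 1) * (L * K * (t * L)) := by exact_mod_cast h1
  calc (((range (t * L)) ×ˢ (range (t * L)) ∩ Bad K L t).card : ℝ) * (2 * B * q ^ 2)
      ≤ ((K + 1) * (L * K * (t * L))) * (2 * B * q ^ 2) :=
        mul_le_mul_of_nonneg_right h2 (by positivity)
    _ = _ := by ring

/-- A function with approximate quadratic scaling is quadratic up to a linear error. -/
theorem conv (G : ℕ → ℝ) (C : ℝ) (hC : 0 ≤ C)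
    (h : ∀ s t : ℕ, 1 ≤ s → 1 ≤ t → |G (s * t) - s ^ 2 * G t| ≤ C * s ^ 2 * t) :
    ∃ δ : ℝ, ∀ t : ℕ, 1 ≤ t → |G t - δ * t ^ 2| ≤ C * t := by
  have h1 : ∀ s t : ℕ, 1 ≤ s → 1 ≤ t →
      |G (s * t) / ((s : ℝ) * t) ^ 2 - G t / (t : ℝ) ^ 2| ≤ C / t := by
    intro s t hs ht
    have hs' : (0 : ℝ) < s := by exact_mod_cast hs
    have ht' : (0 : ℝ) < t := by exact_mod_cast ht
    have e : G (s * t) / ((s : ℝ) * t) ^ 2 - G t / (t : ℝ) ^ 2 =
        (G (s * t) - s ^ 2 * G t) / ((s : ℝ) * t) ^ 2 := by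
      field_simp
    rw [e, abs_div, abs_of_pos (by positivity : (0 : ℝ) < ((s : ℝ) * t) ^ 2),
      div_le_div_iff₀ (by positivity) ht']
    calc |G (s * t) - s ^ 2 * G t| * t ≤ (C * s ^ 2 * t) * t :=
          mul_le_mul_of_nonneg_right (h s t hs ht) ht'.le
      _ = _ := by ring
  have h2 : ∀ s t : ℕ, 1 ≤ s → 1 ≤ t →
      |G s / (s : ℝ) ^ 2 - G t / (t : ℝ) ^ 2| ≤ C / s + C / t := by
    intro s t hs ht
    have h3 := h1 s t hs ht
    have h4 := h1 t s ht hs
    rw [mul_comm t s, mul_comm (t : ℝ) (s : ℝ)] at h4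
    have e : G s / (s : ℝ) ^ 2 - G t / (t : ℝ) ^ 2 =
        (G (s * t) / ((s : ℝ) * t) ^ 2 - G t / (t : ℝ) ^ 2) -
        (G (s * t) / ((s : ℝ) * t) ^ 2 - G s / (s : ℝ) ^ 2) := by ring
    rw [e]
    refine (abs_sub _ _).trans ?_
    linarith
  have h5 : CauchySeq fun s : ℕ => G s / (s : ℝ) ^ 2 := by
    rw [Metric.cauchySeq_iff']
    intro ε hε
    obtain ⟨N, hN⟩ := exists_nat_gt (2 * C / ε)
    have hN0 : (0 : ℝ) < N := lt_of_le_of_lt (by positivity) hN
    have hN1 : 1 ≤ N := by exact_mod_cast hN0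
    refine ⟨N, fun n hn => ?_⟩
    rw [Real.dist_eq]
    refine (h2 n N (hN1.trans hn) hN1).trans_lt ?_
    have hn' : (N : ℝ) ≤ n := by exact_mod_cast hn
    have h6 : C / n ≤ C / N := div_le_div_of_nonneg_left hC hN0 hn'
    have h7 : 2 * C / N < ε := by
      rw [div_lt_iff₀ hε] at hN
      rw [div_lt_iff₀ hN0]
      linarith
    have h8 : 2 * C / (N : ℝ) = C / N + C / N := by ring
    linarith
  obtain ⟨δ, hδ⟩ := cauchySeq_tendsto_of_complete h5
  refine ⟨δ, fun t ht => ?_⟩
  have ht' : (0 : ℝ) < t := by exact_mod_cast ht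
  have h6 : |δ - G t / (t : ℝ) ^ 2| ≤ C / t := by
    have h7 : Filter.Tendsto (fun s : ℕ => |G s / (s : ℝ) ^ 2 - G t / (t : ℝ) ^ 2|)
        Filter.atTop (nhds |δ - G t / (t : ℝ) ^ 2|) := (hδ.sub_const _).abs
    have h8 : Filter.Tendsto (fun s : ℕ => C / s + C / t) Filter.atTop (nhds (0 + C / t)) :=
      (tendsto_const_div_atTop_nhds_zero_nat C).add_const _
    rw [zero_add] at h8
    refine le_of_tendsto_of_tendsto h7 h8 ?_
    filter_upwards [Filter.eventually_ge_atTop 1] with s hs
    exact h2 s t hs ht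
  have e : G t - δ * t ^ 2 = -((δ - G t / (t : ℝ) ^ 2) * t ^ 2) := by
    field_simp
    ring
  rw [e, abs_neg, abs_mul, abs_of_pos (by positivity : (0 : ℝ) < (t : ℝ) ^ 2)]
  calc |δ - G t / (t : ℝ) ^ 2| * t ^ 2 ≤ C / t * t ^ 2 :=
        mul_le_mul_of_nonneg_right h6 (by positivity)
    _ = C * t := by field_simp

end Pool.Agent.V8H2.AP
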