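import Mathlib

/-! # The second order expansion of a product, and the expectation of a product weight -/

set_option autoImplicit false

namespace Pool.Agent.V8H2.AP

open Finset

theorem prod_expand (k : ℕ) : ∃ C : ℝ, 0 ≤ C ∧ ∀ δ : ℝ, 0 ≤ δ → δ ≤ 1 → ∀ u : ℕ → ℝ,
    (∀ i, |u i| ≤ δ) →
    |∏ i ∈ range k, (1 + u i) - 1 - ∑ i ∈ range k, u i -
      ∑ j ∈ range k, ∑ i ∈ range j, u i * u j| ≤ C * δ ^ 3 := by
  induction k with
  | zero => exact ⟨0, le_rfl, fun δ _ _ u _ => by simp⟩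
  | succ k ih =>
    obtain ⟨C, hC, h⟩ := ih
    refine ⟨2 * C + k ^ 2, by positivity, fun δ hδ hδ1 u hu => ?_⟩
    have h1 := h δ hδ hδ1 u hu
    rw [prod_range_succ, sum_range_succ, sum_range_succ (fun j => ∑ i ∈ range j, u i * u j)]
    set P := ∏ i ∈ range k, (1 + u i)
    set S := ∑ i ∈ range k, u i
    set E := ∑ j ∈ range k, ∑ i ∈ range j, u i * u j with hE
    have h2 : ∑ i ∈ range k, u i * u k = S * u k := by rw [← sum_mul]
    rw [h2]
    have hEb : |E| ≤ k ^ 2 * δ ^ 2 := by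
      rw [hE]
      refine (abs_sum_le_sum_abs _ _).trans ?_
      have h3 : ∀ j ∈ range k, |∑ i ∈ range j, u i * u j| ≤ k * δ ^ 2 := by
        intro j hj
        rw [mem_range] at hj
        refine (abs_sum_le_sum_abs _ _).trans ?_
        have h4 : ∀ i ∈ range j, |u i * u j| ≤ δ ^ 2 := by
          intro i _
          rw [abs_mul, sq]
          exact mul_le_mul (hu i) (hu j) (abs_nonneg _) hδ
        refine (sum_le_sum h4).trans ?_
        rw [sum_const, card_range, nsmul_eq_mul]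
        have : (j : ℝ) ≤ k := by exact_mod_cast hj.le
        exact mul_le_mul_of_nonneg_right this (by positivity)
      refine (sum_le_sum h3).trans ?_
      rw [sum_const, card_range, nsmul_eq_mul]
      apply le_of_eq
      ring
    have e : P * (1 + u k) - 1 - (S + u k) - (E + S * u k) =
        (P - 1 - S - E) * (1 + u k) + E * u k := by ring
    rw [e]
    refine (abs_add_le _ _).trans ?_
    rw [abs_mul, abs_mul]
    have h5 : |1 + u k| ≤ 2 := by
      have := abs_le.1 (hu k)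
      rw [abs_le]
      constructor <;> linarith
    have h6 : |P - 1 - S - E| * |1 + u k| ≤ C * δ ^ 3 * 2 :=
      mul_le_mul h1 h5 (abs_nonneg _) (by positivity)
    have h7 : |E| * |u k| ≤ k ^ 2 * δ ^ 2 * δ :=
      mul_le_mul hEb (hu k) (abs_nonneg _) (by positivity)
    calc |P - 1 - S - E| * |1 + u k| + |E| * |u k| ≤ C * δ ^ 3 * 2 + k ^ 2 * δ ^ 2 * δ :=
          add_le_add h6 h7
      _ = _ := by ring

theorem prod_two (k : ℕ) : ∃ C : ℝ, 0 ≤ C ∧ ∀ δ : ℝ, 0 ≤ δ → δ ≤ 1 → ∀ u : ℕ → ℝ,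
    (∀ i, |u i| ≤ δ) →
    ∏ i ∈ range k, (1 + u i) + ∏ i ∈ range k, (1 - u i) ≤
      2 + 2 * ∑ j ∈ range k, ∑ i ∈ range j, u i * u j + 2 * C * δ ^ 3 := by
  obtain ⟨C, hC, h⟩ := prod_expand k
  refine ⟨C, hC, fun δ hδ hδ1 u hu => ?_⟩
  have h1 := (abs_le.1 (h δ hδ hδ1 u hu)).2
  have h2 := (abs_le.1 (h δ hδ hδ1 (fun i => - u i) fun i => by rw [abs_neg]; exact hu i)).2
  simp only [sum_neg_distrib, neg_mul_neg, ← sub_eq_add_neg] at h2
  linarith

/-- The product weight of a function. -/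
def wt {ι : Type*} [Fintype ι] {r : ℕ} (w : ι → Fin r → ℝ) (F : ι → Fin r) : ℝ := ∏ x, w x (F x)

theorem wt_nonneg {ι : Type*} [Fintype ι] {r : ℕ} {w : ι → Fin r → ℝ} (h : ∀ x c, 0 ≤ w x c)
    (F : ι → Fin r) : 0 ≤ wt w F := prod_nonneg fun x _ => h x _

theorem sum_wt {ι : Type*} [Fintype ι] [DecidableEq ι] {r : ℕ} {w : ι → Fin r → ℝ}
    (h : ∀ x, ∑ c, w x c = 1) : ∑ F : ι → Fin r, wt w F = 1 := by
  unfold wt
  have h1 := Finset.prod_univ_sum (fun _ : ι => (univ : Finset (Fin r))) w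
  rw [Fintype.piFinset_univ] at h1
  rw [← h1]
  exact prod_eq_one fun x _ => h x

theorem sum_wt_const {ι : Type*} [Fintype ι] [DecidableEq ι] {r k : ℕ} {w : ι → Fin r → ℝ}
    (h : ∀ x, ∑ c, w x c = 1) (p : Fin k → ι) (hp : Function.Injective p) (c : Fin r) :
    ∑ F : ι → Fin r, wt w F * (if ∀ i, F (p i) = c then 1 else 0) = ∏ i, w (p i) c := by
  classical
  have h1 := Finset.prod_univ_sum (fun _ : ι => (univ : Finset (Fin r)))
    (fun x c' => if x ∈ univ.image p then (if c' = c then w x c' else 0) else w x c')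
  rw [Fintype.piFinset_univ] at h1
  have h2 : ∀ F : ι → Fin r, wt w F * (if ∀ i, F (p i) = c then 1 else 0) =
      ∏ x, (if x ∈ univ.image p then (if F x = c then w x (F x) else 0) else w x (F x)) := by
    intro F
    by_cases hF : ∀ i, F (p i) = c
    · rw [if_pos hF, mul_one]
      unfold wt
      refine prod_congr rfl fun x _ => ?_
      by_cases hx : x ∈ univ.image p
      · rw [if_pos hx]
        obtain ⟨i, _, rfl⟩ := mem_image.1 hx
        rw [if_pos (hF i)]
      · rw [if_neg hx]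
    · rw [if_neg hF, mul_zero]
      push Not at hF
      obtain ⟨i, hi⟩ := hF
      symm
      apply prod_eq_zero (mem_univ (p i))
      rw [if_pos (mem_image_of_mem _ (mem_univ i)), if_neg hi]
  rw [sum_congr rfl fun F _ => h2 F, ← h1]
  have h3 : ∀ x : ι, ∑ c' ∈ (univ : Finset (Fin r)),
      (if x ∈ univ.image p then (if c' = c then w x c' else 0) else w x c') =
      if x ∈ univ.image p then w x c else 1 := by
    intro x
    by_cases hx : x ∈ univ.image p
    · simp only [if_pos hx]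
      rw [sum_ite_eq']
      simp
    · simp only [if_neg hx]
      exact h x
  rw [prod_congr rfl fun x _ => h3 x, prod_ite_mem, univ_inter, prod_image fun i _ j _ hij => hp hij]

theorem sum_wt_mono {ι : Type*} [Fintype ι] [DecidableEq ι] {r k : ℕ} {w : ι → Fin r → ℝ}
    (h : ∀ x, ∑ c, w x c = 1) (p : Fin (k + 1) → ι) (hp : Function.Injective p) :
    ∑ F : ι → Fin r, wt w F * (if ∀ i, F (p i) = F (p 0) then 1 else 0) =
      ∑ c, ∏ i, w (p i) c := by
  classical
  rw [← sum_congr rfl fun c _ => sum_wt_const h p hp c, sum_comm]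
  refine sum_congr rfl fun F _ => ?_
  rw [← mul_sum]
  congr 1
  by_cases hF : ∀ i, F (p i) = F (p 0)
  · rw [if_pos hF, sum_eq_single (F (p 0))]
    · rw [if_pos hF]
    · intro c _ hc
      rw [if_neg]
      exact fun h => hc (h 0).symm
    · exact fun h => absurd (mem_univ _) h
  · rw [if_neg hF]
    symm
    refine sum_eq_zero fun c _ => ?_
    rw [if_neg]
    exact fun h => hF fun i => (h i).trans (h 0).symm

theorem sum_wt_mono_le {ι : Type*} [Fintype ι] [DecidableEq ι] {r : ℕ} {w : ι → Fin r → ℝ}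
    (h : ∀ x, ∑ c, w x c = 1) (h0 : ∀ x c, 0 ≤ w x c) (q : (ι → Fin r) → Prop)
    [DecidablePred q] :
    ∑ F : ι → Fin r, wt w F * (if q F then 1 else 0) ≤ 1 := by
  refine le_trans (sum_le_sum fun F _ => ?_) (sum_wt h).le
  have := wt_nonneg h0 F
  split_ifs <;> linarith

/-- Some function is at most the average. -/
theorem exists_le_avg {ι : Type*} [Fintype ι] [DecidableEq ι] {r : ℕ} {w : ι → Fin r → ℝ}
    (h : ∀ x, ∑ c, w x c = 1) (h0 : ∀ x c, 0 ≤ w x c) (G : (ι → Fin r) → ℝ) (A : ℝ)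
    (hA : ∑ F, wt w F * G F ≤ A) : ∃ F, G F ≤ A := by
  by_contra hcon
  push Not at hcon
  have h1 : ∑ F, wt w F * A ≤ ∑ F, wt w F * G F :=
    sum_le_sum fun F _ => mul_le_mul_of_nonneg_left (hcon F).le (wt_nonneg h0 F)
  rw [← sum_mul, sum_wt h, one_mul] at h1
  have h2 : A = ∑ F, wt w F * G F := le_antisymm h1 hA
  have h3 : ∑ F, wt w F * (G F - A) = 0 := by
    simp only [mul_sub]
    rw [sum_sub_distrib, ← sum_mul, sum_wt h, one_mul, ← h2, sub_self]
  rw [sum_eq_zero_iff_of_nonneg fun F _ => mul_nonneg (wt_nonneg h0 F) (sub_nonneg.2 (hcon F).le)]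
    at h3
  have h4 : ∀ F : ι → Fin r, wt w F = 0 := fun F => by
    rcases mul_eq_zero.1 (h3 F (mem_univ F)) with h5 | h5
    · exact h5
    · exact absurd h5 (sub_pos.2 (hcon F)).ne'
  have h5 := sum_wt h
  rw [sum_eq_zero fun F _ => h4 F] at h5
  exact zero_ne_one h5

end Pool.Agent.V8H2.AP
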