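import Mathlib
import Pool.Agent.V8H2.AP.Box

/-! # The quadratic form is negative at a step function with three blocks -/

set_option autoImplicit false

namespace Pool.Agent.V8H2.AP

open Finset

/-- The first special block. -/
def b1 (K : ℕ) : ℕ := (K - 1) * (3 * K + 6) - 2
/-- The second special block. -/
def b2 (K : ℕ) : ℕ := (K - 1) * (3 * K + 6) + 1
/-- The third special block. -/
def b3 (K : ℕ) : ℕ := K * (3 * K + 6)
/-- The number of the blocks. -/
def LL (K : ℕ) : ℕ := (K + 1) * (b3 K + 1)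

/-- The type of a block. -/
def ty (K b : ℕ) : Fin 4 := if b = b1 K then 1 else if b = b2 K then 2 else if b = b3 K then 3 else 0

/-- The perturbation for each type. -/
def gam : Fin 4 → ℝ := ![0, 1, -2, 1]

/-- The perturbation at a position. -/
noncomputable def ga (K l x : ℕ) : ℝ := gam (ty K (x / l))

theorem ineqs {K : ℕ} (hK : 2 ≤ K) : K * (b1 K + 1) ≤ (K - 1) * b3 K ∧
    (K - 1) * (b2 K + 1) ≤ K * b1 K ∧ (K - 1) * (b3 K + 1) ≤ K * b2 K ∧
    (K - 2) * (b3 K + 1) ≤ (K - 1) * b1 K ∧ b1 K < b2 K ∧ b2 K < b3 K ∧ b3 K < LL K := by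
  obtain ⟨k, rfl⟩ : ∃ k, K = k + 2 := ⟨K - 2, by omega⟩
  unfold LL b1 b2 b3
  have e1 : k + 2 - 1 = k + 1 := by omega
  have e2 : k + 2 - 2 = k := by omega
  rw [e1, e2]
  have e3 : (k + 1) * (3 * (k + 2) + 6) - 2 = 3 * k ^ 2 + 15 * k + 10 := by
    have : (k + 1) * (3 * (k + 2) + 6) = 3 * k ^ 2 + 15 * k + 12 := by ring
    omega
  rw [e3]
  refine ⟨?_, ?_, ?_, ?_, ?_, ?_, ?_⟩ <;> nlinarith [sq_nonneg k]

theorem gam_ty_ne {K b : ℕ} (h : gam (ty K b) ≠ 0) : b = b1 K ∨ b = b2 K ∨ b = b3 K := by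
  unfold ty at h
  split_ifs at h with h1 h2 h3
  · exact Or.inl h1
  · exact Or.inr (Or.inl h2)
  · exact Or.inr (Or.inr h3)
  · exact absurd rfl h

theorem gam_b1 (K : ℕ) : gam (ty K (b1 K)) = 1 := by
  unfold ty
  rw [if_pos rfl]
  simp [gam]

theorem gam_b2 {K : ℕ} (hK : 2 ≤ K) : gam (ty K (b2 K)) = -2 := by
  have h := ineqs hK
  unfold ty
  rw [if_neg (by omega), if_pos rfl]
  simp [gam]

theorem gam_b3 {K : ℕ} (hK : 2 ≤ K) : gam (ty K (b3 K)) = 1 := by
  have h := ineqs hK
  unfold ty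
  rw [if_neg (by omega), if_neg (by omega), if_pos rfl]
  simp [gam]

theorem sum_gam {K : ℕ} (hK : 2 ≤ K) : ∑ b ∈ range (LL K), gam (ty K b) = 0 := by
  have h := ineqs hK
  have h1 : ∀ b ∈ range (LL K), gam (ty K b) =
      ((if b = b1 K then (1 : ℝ) else 0) + (if b = b2 K then (-2 : ℝ) else 0)) +
        (if b = b3 K then (1 : ℝ) else 0) := by
    intro b _
    by_cases e1 : b = b1 K
    · subst e1
      rw [gam_b1, if_pos rfl, if_neg (by omega), if_neg (by omega)]
      norm_num
    · by_cases e2 : b = b2 K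
      · subst e2
        rw [gam_b2 hK, if_neg (by omega), if_pos rfl, if_neg (by omega)]
        norm_num
      · by_cases e3 : b = b3 K
        · subst e3
          rw [gam_b3 hK, if_neg (by omega), if_neg (by omega), if_pos rfl]
          norm_num
        · rw [if_neg e1, if_neg e2, if_neg e3]
          by_contra hne
          have h2 : gam (ty K b) ≠ 0 := fun h0 => hne (by rw [h0]; norm_num)
          rcases gam_ty_ne h2 with h3 | h3 | h3
          · exact e1 h3
          · exact e2 h3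
          · exact e3 h3
  rw [sum_congr rfl h1, sum_add_distrib, sum_add_distrib, sum_ite_eq', sum_ite_eq', sum_ite_eq',
    if_pos (mem_range.2 (by omega)), if_pos (mem_range.2 (by omega)),
    if_pos (mem_range.2 (by omega))]
  norm_num

theorem mul_add_div' {b l w : ℕ} (hw : w < l) : (b * l + w) / l = b := by
  rw [mul_comm, Nat.mul_add_div (by omega), Nat.div_eq_of_lt hw, add_zero]

/-- The sums over residue classes vanish. -/
theorem class_sum {K l q : ℕ} (hK : 2 ≤ K) (hq : q ∣ l) (c : ℕ) :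
    ∑ z ∈ range (LL K * l), (if z % q = c then ga K l z else 0) = 0 := by
  rw [sum_range_mul]
  have h1 : ∀ b ∈ range (LL K), ∑ w ∈ range l,
      (if (b * l + w) % q = c then ga K l (b * l + w) else 0) =
      gam (ty K b) * ∑ w ∈ range l, (if w % q = c then (1 : ℝ) else 0) := by
    intro b _
    rw [mul_sum]
    refine sum_congr rfl fun w hw => ?_
    rw [mem_range] at hw
    have h2 : (b * l + w) % q = w % q := by
      obtain ⟨s, rfl⟩ := hq
      have : b * (q * s) + w = w + q * (b * s) := by ring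
      rw [this, Nat.add_mul_mod_self_left]
    rw [h2, ga, mul_add_div' hw]
    split_ifs <;> simp
  rw [sum_congr rfl h1, ← sum_mul, sum_gam hK, zero_mul]

/-- The progressions in `{0, ..., n - 1}`. -/
def APs (K n : ℕ) : Finset (ℕ × ℕ) :=
  ((range n) ×ˢ (range n)).filter fun p => 1 ≤ p.2 ∧ p.1 + K * p.2 < n

/-- The sum over the pairs with distance divisible by `q`. -/
noncomputable def UU (K l q : ℕ) : ℝ :=
  ∑ p ∈ ((range (LL K * l)) ×ˢ (range (LL K * l))) with p.1 < p.2 ∧ q ∣ p.2 - p.1,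
    ga K l p.1 * ga K l p.2

theorem UU_nonpos {K l q : ℕ} (hK : 2 ≤ K) (hq : q ∣ l) : UU K l q ≤ 0 := by
  set n := LL K * l with hn
  have h0 : ∑ p ∈ (range n) ×ˢ (range n),
      (if p.1 % q = p.2 % q then ga K l p.1 * ga K l p.2 else 0) = 0 := by
    rw [sum_product]
    refine sum_eq_zero fun y _ => ?_
    have h1 : ∀ z ∈ range n, (if y % q = z % q then ga K l y * ga K l z else 0) =
        ga K l y * (if z % q = y % q then ga K l z else 0) := by
      intro z _
      by_cases h : y % q = z % q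
      · rw [if_pos h, if_pos h.symm]
      · rw [if_neg h, if_neg fun h' => h h'.symm, mul_zero]
    show ∑ z ∈ range n, (if y % q = z % q then ga K l y * ga K l z else 0) = 0
    rw [sum_congr rfl h1, ← mul_sum, class_sum hK hq, mul_zero]
  have hiff : ∀ y z : ℕ, y < z → (y % q = z % q ↔ q ∣ z - y) := fun y z hyz => by
    rw [← Nat.modEq_iff_dvd' hyz.le]
    rfl
  have h1 : ∀ p ∈ (range n) ×ˢ (range n),
      (if p.1 % q = p.2 % q then ga K l p.1 * ga K l p.2 else 0) =
      ((if p.1 < p.2 ∧ q ∣ p.2 - p.1 then ga K l p.1 * ga K l p.2 else 0) +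
      (if p.2 < p.1 ∧ q ∣ p.1 - p.2 then ga K l p.2 * ga K l p.1 else 0)) +
      (if p.1 = p.2 then ga K l p.1 ^ 2 else 0) := by
    rintro ⟨y, z⟩ _
    simp only
    rcases lt_trichotomy y z with h | h | h
    · rw [if_neg (c := z < y ∧ q ∣ y - z) (by omega), if_neg (c := y = z) (by omega)]
      by_cases h2 : y % q = z % q
      · rw [if_pos h2, if_pos ⟨h, (hiff y z h).1 h2⟩, add_zero, add_zero]
      · rw [if_neg h2, if_neg fun h3 => h2 ((hiff y z h).2 h3.2), add_zero, add_zero]
    · subst h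
      rw [if_pos rfl, if_neg (by omega), if_pos rfl]
      ring
    · rw [if_neg (c := y < z ∧ q ∣ z - y) (by omega), if_neg (c := y = z) (by omega)]
      by_cases h2 : y % q = z % q
      · rw [if_pos h2, if_pos ⟨h, (hiff z y h).1 h2.symm⟩]
        ring
      · rw [if_neg h2, if_neg fun h3 => h2 ((hiff z y h).2 h3.2).symm, add_zero, add_zero]
  rw [sum_congr rfl h1, sum_add_distrib, sum_add_distrib] at h0
  have h2 : ∑ p ∈ (range n) ×ˢ (range n),
      (if p.2 < p.1 ∧ q ∣ p.1 - p.2 then ga K l p.2 * ga K l p.1 else 0) =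
      ∑ p ∈ (range n) ×ˢ (range n),
      (if p.1 < p.2 ∧ q ∣ p.2 - p.1 then ga K l p.1 * ga K l p.2 else 0) := by
    rw [sum_product, sum_product, sum_comm]
  have h3 : 0 ≤ ∑ p ∈ (range n) ×ˢ (range n), (if p.1 = p.2 then ga K l p.1 ^ 2 else 0) := by
    refine sum_nonneg fun p _ => ?_
    split_ifs
    · positivity
    · exact le_rfl
  have h4 : UU K l q = ∑ p ∈ (range n) ×ˢ (range n),
      (if p.1 < p.2 ∧ q ∣ p.2 - p.1 then ga K l p.1 * ga K l p.2 else 0) := by
    rw [UU, sum_filter]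
  rw [h2, ← h4] at h0
  linarith

theorem ga_ne {K l x : ℕ} (h : ga K l x ≠ 0) : x / l = b1 K ∨ x / l = b2 K ∨ x / l = b3 K :=
  gam_ty_ne h

theorem block_bounds {b l x : ℕ} (hl : 0 < l) (h : x / l = b) : b * l ≤ x ∧ x < (b + 1) * l := by
  subst h
  exact ⟨Nat.div_mul_le_self x l, by
    rw [mul_comm]; exact Nat.lt_mul_div_succ x hl⟩

theorem ga_bounds {K l x : ℕ} (hK : 2 ≤ K) (hl : 0 < l) (h : ga K l x ≠ 0) :
    b1 K * l ≤ x ∧ x < (b3 K + 1) * l := by
  have h1 := ineqs hK
  rcases ga_ne h with h2 | h2 | h2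
  · obtain ⟨h3, h4⟩ := block_bounds hl h2
    exact ⟨h3, h4.trans_le (Nat.mul_le_mul_right _ (by omega))⟩
  · obtain ⟨h3, h4⟩ := block_bounds hl h2
    exact ⟨(Nat.mul_le_mul_right _ (by omega)).trans h3,
      h4.trans_le (Nat.mul_le_mul_right _ (by omega))⟩
  · obtain ⟨h3, h4⟩ := block_bounds hl h2
    exact ⟨(Nat.mul_le_mul_right _ (by omega)).trans h3, h4⟩

/-- The sum over the progressions of the product of two terms. -/
theorem sum_pair {K l i j : ℕ} (hK : 2 ≤ K) (hl : 0 < l) (hij : i < j) (hj : j ≤ K) :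
    ∑ p ∈ APs K (LL K * l), ga K l (p.1 + i * p.2) * ga K l (p.1 + j * p.2) =
      ∑ p ∈ ((range (LL K * l)) ×ˢ (range (LL K * l))) with
        (p.1 < p.2 ∧ (j - i) ∣ p.2 - p.1) ∧ i * p.2 ≤ j * p.1, ga K l p.1 * ga K l p.2 := by
  refine Finset.sum_bij_ne_zero (fun p _ _ => (p.1 + i * p.2, p.1 + j * p.2)) ?_ ?_ ?_ ?_
  · rintro ⟨a, d⟩ h1 _
    rw [APs, mem_filter] at h1
    obtain ⟨h2, h3, h4⟩ := h1
    simp only at h3 h4
    have h5 : i * d + (j - i) * d = j * d := by
      rw [← Nat.add_mul]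
      congr 1
      omega
    have h6 : j * d ≤ K * d := Nat.mul_le_mul_right _ hj
    have h7 : 1 ≤ (j - i) * d := Nat.mul_pos (by omega) (by omega)
    rw [mem_filter, mem_product, mem_range, mem_range]
    simp only
    refine ⟨⟨by omega, by omega⟩, ⟨by omega, ?_⟩, ?_⟩
    · have : a + j * d - (a + i * d) = (j - i) * d := by omega
      rw [this]
      exact dvd_mul_right _ _
    · have : i * a ≤ j * a := Nat.mul_le_mul_right _ hij.le
      nlinarith
  · rintro ⟨a, d⟩ _ _ ⟨a', d'⟩ _ _ h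
    simp only [Prod.mk.injEq] at h
    obtain ⟨h1, h2⟩ := h
    have h5 : i * d + (j - i) * d = j * d := by
      rw [← Nat.add_mul]
      congr 1
      omega
    have h5' : i * d' + (j - i) * d' = j * d' := by
      rw [← Nat.add_mul]
      congr 1
      omega
    have h6 : (j - i) * d = (j - i) * d' := by omega
    have h7 : d = d' := Nat.eq_of_mul_eq_mul_left (by omega) h6
    subst h7
    rw [Prod.mk.injEq]
    exact ⟨by omega, rfl⟩
  · rintro ⟨y, z⟩ h1 h2
    rw [mem_filter, mem_product, mem_range, mem_range] at h1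
    simp only at h1 h2
    obtain ⟨⟨h3, h4⟩, ⟨h5, d, h6⟩, h7⟩ := h1
    have h8 := ga_bounds hK hl (right_ne_zero_of_mul h2)
    have h9 : i * d ≤ y := by
      have h10 : (j - i) * (i * d) ≤ (j - i) * y := by
        have h11 : (j - i) * (i * d) = i * (z - y) := by rw [h6]; ring
        have h12 : i * (z - y) = i * z - i * y := Nat.mul_sub _ _ _
        have h13 : (j - i) * y = j * y - i * y := Nat.sub_mul _ _ _
        rw [h11, h12, h13]
        omega
      exact Nat.le_of_mul_le_mul_left h10 (by omega)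
    have hd : 1 ≤ d := by
      by_contra hd
      obtain rfl : d = 0 := by omega
      simp at h6
      omega
    have hd2 : d ≤ z - y := by
      rw [h6]
      exact Nat.le_mul_of_pos_left d (by omega)
    have h14 : i * d + (j - i) * d = j * d := by
      rw [← Nat.add_mul]
      congr 1
      omega
    have h15 : LL K * l = (b3 K + 1) * l + K * ((b3 K + 1) * l) := by
      unfold LL
      ring
    have h16 : K * d ≤ K * z := Nat.mul_le_mul_left _ (by omega)
    have h17 : K * z ≤ K * ((b3 K + 1) * l) := Nat.mul_le_mul_left _ h8.2.le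
    have h18 : y - i * d + K * d < LL K * l := by omega
    refine ⟨(y - i * d, d), ?_, ?_, ?_⟩
    · rw [APs, mem_filter, mem_product, mem_range, mem_range]
      simp only
      exact ⟨⟨by omega, by nlinarith⟩, hd, h18⟩
    · simp only
      have e1 : y - i * d + i * d = y := by omega
      have e2 : y - i * d + j * d = z := by omega
      rwa [e1, e2]
    · simp only [Prod.mk.injEq]
      exact ⟨by omega, by omega⟩
  · rintro ⟨a, d⟩ _ _
    rfl

theorem sum_pair_le {K l i j : ℕ} (hK : 2 ≤ K) (hl : 0 < l) (hdvd : ∀ q, 1 ≤ q → q ≤ K → q ∣ l)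
    (hij : i < j) (hj : j ≤ K) (hne : ¬ (i = K - 1 ∧ j = K)) :
    ∑ p ∈ APs K (LL K * l), ga K l (p.1 + i * p.2) * ga K l (p.1 + j * p.2) ≤ 0 := by
  rw [sum_pair hK hl hij hj]
  refine le_trans (le_of_eq ?_) (UU_nonpos hK (hdvd (j - i) (by omega) (by omega)))
  rw [UU, ← Finset.filter_filter]
  refine Finset.sum_filter_of_ne fun p hp h => ?_
  have h1 := ga_bounds hK hl (left_ne_zero_of_mul h)
  have h2 := ga_bounds hK hl (right_ne_zero_of_mul h)
  have h3 := ineqs hK
  have h4 : i * (K - 1) ≤ j * (K - 2) := by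
    obtain ⟨k, rfl⟩ : ∃ k, K = k + 2 := ⟨K - 2, by omega⟩
    have e1 : k + 2 - 1 = k + 1 := by omega
    have e2 : k + 2 - 2 = k := by omega
    rw [e1, e2]
    rw [e1] at hne
    rcases Nat.lt_or_ge j (k + 2) with h5 | h5
    · obtain ⟨s, rfl⟩ : ∃ s, j = i + 1 + s := ⟨j - (i + 1), by omega⟩
      have h6 : i + 1 + s ≤ k + 1 := by omega
      nlinarith
    · obtain rfl : j = k + 2 := by omega
      have h6 : i ≤ k := by omega
      nlinarith
  have h5 : i * (b3 K + 1) ≤ j * b1 K := by
    have h6 : (K - 1) * (i * (b3 K + 1)) ≤ (K - 1) * (j * b1 K) := by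
      calc (K - 1) * (i * (b3 K + 1)) = i * (K - 1) * (b3 K + 1) := by ring
        _ ≤ j * (K - 2) * (b3 K + 1) := Nat.mul_le_mul_right _ h4
        _ = j * ((K - 2) * (b3 K + 1)) := by ring
        _ ≤ j * ((K - 1) * b1 K) := Nat.mul_le_mul_left _ h3.2.2.2.1
        _ = _ := by ring
    exact Nat.le_of_mul_le_mul_left h6 (by omega)
  calc i * p.2 ≤ i * ((b3 K + 1) * l) := Nat.mul_le_mul_left _ h2.2.le
    _ = i * (b3 K + 1) * l := by ring
    _ ≤ j * b1 K * l := Nat.mul_le_mul_right _ h5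
    _ = j * (b1 K * l) := by ring
    _ ≤ j * p.1 := Nat.mul_le_mul_left _ h1.1

theorem sum_special {K l : ℕ} (hK : 2 ≤ K) (hl : 0 < l) :
    ∑ p ∈ (range (LL K * l)) ×ˢ (range (LL K * l)),
      (if p.1 < p.2 ∧ K * p.1 < (K - 1) * p.2 then ga K l p.1 * ga K l p.2 else 0) =
      (l : ℝ) ^ 2 := by
  have h3 := ineqs hK
  have h1 : ∀ p ∈ (range (LL K * l)) ×ˢ (range (LL K * l)),
      (if p.1 < p.2 ∧ K * p.1 < (K - 1) * p.2 then ga K l p.1 * ga K l p.2 else 0) =
      (if p.1 / l = b1 K then 1 else 0) * (if p.2 / l = b3 K then (1 : ℝ) else 0) := by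
    rintro ⟨y, z⟩ _
    simp only
    by_cases hs : y / l = b1 K ∧ z / l = b3 K
    · obtain ⟨hy, hz⟩ := hs
      have h4 := block_bounds hl hy
      have h5 := block_bounds hl hz
      have h6 : K * y < (K - 1) * z := by
        calc K * y < K * ((b1 K + 1) * l) := Nat.mul_lt_mul_of_pos_left h4.2 (by omega)
          _ = K * (b1 K + 1) * l := by ring
          _ ≤ (K - 1) * b3 K * l := Nat.mul_le_mul_right _ h3.1
          _ = (K - 1) * (b3 K * l) := by ring
          _ ≤ _ := Nat.mul_le_mul_left _ h5.1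
      have h7 : y < z := by
        have : (b1 K + 1) * l ≤ b3 K * l := Nat.mul_le_mul_right _ (by omega)
        omega
      rw [if_pos ⟨h7, h6⟩, ga, ga, hy, hz, gam_b1, gam_b3 hK, if_pos rfl, if_pos rfl]
    · have hr : (if y / l = b1 K then 1 else 0) * (if z / l = b3 K then (1 : ℝ) else 0) = 0 := by
        by_cases hy : y / l = b1 K
        · have hz : ¬ z / l = b3 K := fun hz => hs ⟨hy, hz⟩
          rw [if_neg hz, mul_zero]
        · rw [if_neg hy, zero_mul]
      rw [hr]
      by_cases hc : y < z ∧ K * y < (K - 1) * z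
      · rw [if_pos hc]
        by_contra hne
        have hy := ga_ne (left_ne_zero_of_mul hne)
        have hz := ga_ne (right_ne_zero_of_mul hne)
        -- excluded pairs
        have key : ∀ b b' : ℕ, y / l = b → z / l = b' → (K - 1) * (b' + 1) ≤ K * b → False := by
          intro b b' hb hb' hle
          have h4 := block_bounds hl hb
          have h5 := block_bounds hl hb'
          have h6 : (K - 1) * z ≤ K * y := by
            calc (K - 1) * z ≤ (K - 1) * ((b' + 1) * l) := Nat.mul_le_mul_left _ h5.2.le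
              _ = (K - 1) * (b' + 1) * l := by ring
              _ ≤ K * b * l := Nat.mul_le_mul_right _ hle
              _ = K * (b * l) := by ring
              _ ≤ _ := Nat.mul_le_mul_left _ h4.1
          omega
        have m1 : K * b1 K ≤ K * b2 K := Nat.mul_le_mul_left _ (by omega)
        have m2 : K * b2 K ≤ K * b3 K := Nat.mul_le_mul_left _ (by omega)
        have m3 : (K - 1) * (b1 K + 1) ≤ (K - 1) * (b2 K + 1) := Nat.mul_le_mul_left _ (by omega)
        have m4 : (K - 1) * (b2 K + 1) ≤ (K - 1) * (b3 K + 1) := Nat.mul_le_mul_left _ (by omega)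
        rcases hy with hy | hy | hy
        · rcases hz with hz | hz | hz
          · exact key _ _ hy hz (by omega)
          · exact key _ _ hy hz (by omega)
          · exact hs ⟨hy, hz⟩
        · rcases hz with hz | hz | hz
          · exact key _ _ hy hz (by omega)
          · exact key _ _ hy hz (by omega)
          · exact key _ _ hy hz (by omega)
        · rcases hz with hz | hz | hz
          · exact key _ _ hy hz (by omega)
          · exact key _ _ hy hz (by omega)
          · exact key _ _ hy hz (by omega)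
      · rw [if_neg hc]
  rw [sum_congr rfl h1, sum_product]
  have h4 : ∀ b < LL K, ∑ x ∈ range (LL K * l), (if x / l = b then (1 : ℝ) else 0) = l := by
    intro b hb
    rw [sum_range_mul]
    have h5 : ∀ b' ∈ range (LL K), ∑ w ∈ range l, (if (b' * l + w) / l = b then (1 : ℝ) else 0) =
        if b' = b then (l : ℝ) else 0 := by
      intro b' _
      have h6 : ∀ w ∈ range l, (if (b' * l + w) / l = b then (1 : ℝ) else 0) =
          if b' = b then 1 else 0 := by
        intro w hw
        rw [mul_add_div' (mem_range.1 hw)]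
      rw [sum_congr rfl h6, sum_const, card_range, nsmul_eq_mul]
      split_ifs <;> simp
    rw [sum_congr rfl h5, sum_ite_eq', if_pos (mem_range.2 hb)]
  have h5 : ∀ y ∈ range (LL K * l), ∑ z ∈ range (LL K * l),
      (if (y, z).1 / l = b1 K then (1 : ℝ) else 0) * (if (y, z).2 / l = b3 K then (1 : ℝ) else 0) =
      (if y / l = b1 K then (1 : ℝ) else 0) * l := by
    intro y _
    show ∑ z ∈ range (LL K * l),
      (if y / l = b1 K then (1 : ℝ) else 0) * (if z / l = b3 K then (1 : ℝ) else 0) = _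
    rw [← mul_sum, h4 _ (by omega)]
  rw [sum_congr rfl h5, ← sum_mul, h4 _ (by omega), sq]

theorem sum_pair_last {K l : ℕ} (hK : 2 ≤ K) (hl : 0 < l) :
    ∑ p ∈ APs K (LL K * l), ga K l (p.1 + (K - 1) * p.2) * ga K l (p.1 + K * p.2) ≤
      -(l : ℝ) ^ 2 := by
  rw [sum_pair hK hl (by omega) le_rfl]
  have h1 : K - (K - 1) = 1 := by omega
  rw [h1]
  have h2 := UU_nonpos (K := K) (l := l) (q := 1) hK (one_dvd l)
  rw [UU, sum_filter] at h2
  rw [sum_filter]
  have h3 := sum_special hK hl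
  have h4 : ∑ p ∈ (range (LL K * l)) ×ˢ (range (LL K * l)),
      (if (p.1 < p.2 ∧ 1 ∣ p.2 - p.1) ∧ (K - 1) * p.2 ≤ K * p.1 then
        ga K l p.1 * ga K l p.2 else 0) =
      ∑ p ∈ (range (LL K * l)) ×ˢ (range (LL K * l)),
        (if p.1 < p.2 ∧ 1 ∣ p.2 - p.1 then ga K l p.1 * ga K l p.2 else 0) -
      ∑ p ∈ (range (LL K * l)) ×ˢ (range (LL K * l)),
        (if p.1 < p.2 ∧ K * p.1 < (K - 1) * p.2 then ga K l p.1 * ga K l p.2 else 0) := by
    rw [← sum_sub_distrib]
    refine sum_congr rfl fun p _ => ?_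
    by_cases h5 : p.1 < p.2
    · by_cases h6 : (K - 1) * p.2 ≤ K * p.1
      · rw [if_pos ⟨⟨h5, one_dvd _⟩, h6⟩, if_pos ⟨h5, one_dvd _⟩, if_neg (by omega), sub_zero]
      · rw [if_neg fun h => h6 h.2, if_pos ⟨h5, one_dvd _⟩, if_pos (by omega), sub_self]
    · rw [if_neg fun h => h5 h.1.1, if_neg fun h => h5 h.1, if_neg fun h => h5 h.1, sub_zero]
  rw [h4, h3]
  linarith

/-- **The quadratic form is negative.** -/
theorem quad_neg {K l : ℕ} (hK : 2 ≤ K) (hl : 0 < l) (hdvd : ∀ q, 1 ≤ q → q ≤ K → q ∣ l) :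
    ∑ p ∈ APs K (LL K * l), ∑ j ∈ range (K + 1), ∑ i ∈ range j,
      ga K l (p.1 + i * p.2) * ga K l (p.1 + j * p.2) ≤ -(l : ℝ) ^ 2 := by
  rw [sum_comm, sum_range_succ]
  have h1 : ∑ j ∈ range K, ∑ p ∈ APs K (LL K * l), ∑ i ∈ range j,
      ga K l (p.1 + i * p.2) * ga K l (p.1 + j * p.2) ≤ 0 := by
    refine sum_nonpos fun j hj => ?_
    rw [mem_range] at hj
    rw [sum_comm]
    refine sum_nonpos fun i hi => ?_
    rw [mem_range] at hi
    exact sum_pair_le hK hl hdvd hi hj.le (by omega)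
  have h2 : ∑ p ∈ APs K (LL K * l), ∑ i ∈ range K,
      ga K l (p.1 + i * p.2) * ga K l (p.1 + K * p.2) ≤ -(l : ℝ) ^ 2 := by
    rw [sum_comm]
    have e : range K = range (K - 1 + 1) := by congr 1; omega
    rw [e, sum_range_succ]
    have h3 : ∑ i ∈ range (K - 1), ∑ p ∈ APs K (LL K * l),
        ga K l (p.1 + i * p.2) * ga K l (p.1 + K * p.2) ≤ 0 := by
      refine sum_nonpos fun i hi => ?_
      rw [mem_range] at hi
      exact sum_pair_le hK hl hdvd (by omega) le_rfl (by omega)
    have h4 := sum_pair_last hK hl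
    linarith
  linarith

end Pool.Agent.V8H2.AP
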