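import Mathlib
import Pool.Agent.V8H2.AP.Box
import Pool.Agent.V8H2.AP.Quad
import Pool.Agent.V8H2.AP.Prod

/-! # Counting monochromatic progressions of the structured colourings -/

set_option autoImplicit false

namespace Pool.Agent.V8H2.AP

open Finset

/-- The number of the monochromatic progressions `a, a + d, ..., a + K d` in `{0, ..., n - 1}`. -/
def NN {r : ℕ} (K : ℕ) (χ : ℕ → Fin r) (n : ℕ) : ℕ :=
  ((APs K n).filter fun p => ∀ i : Fin (K + 1), χ (p.1 + i.val * p.2) = χ p.1).card

/-- The colouring given by a function of the type of the block and the residue. -/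
def col {m r : ℕ} (K l : ℕ) (F : Fin 4 × ZMod m → Fin r) (x : ℕ) : Fin r :=
  F (ty K (x / l), (x : ZMod m))

open Classical in
/-- The indicator as a function of the residues and the blocks. -/
noncomputable def RR {m r : ℕ} (K : ℕ) (F : Fin 4 × ZMod m → Fin r) (u v : ℕ)
    (b : Fin (K + 1) → ℕ) : ℝ :=
  if b (Fin.last K) < LL K ∧ ∀ i : Fin (K + 1),
    F (ty K (b i), ((u + i.val * v : ℕ) : ZMod m)) = F (ty K (b 0), (u : ZMod m)) then 1 else 0

theorem RR_abs {m r K : ℕ} (F : Fin 4 × ZMod m → Fin r) (u v : ℕ)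
    (b : Fin (K + 1) → ℕ) : |RR K F u v b| ≤ 1 := by
  unfold RR
  split_ifs <;> simp

theorem RR_zero {m r K : ℕ} (F : Fin 4 × ZMod m → Fin r) (u v : ℕ)
    (b : Fin (K + 1) → ℕ) (h : LL K ≤ b (Fin.last K)) : RR K F u v b = 0 := by
  unfold RR
  rw [if_neg]
  intro h'
  omega

theorem RR_eq {m r K l a d : ℕ} (F : Fin 4 × ZMod m → Fin r) (hl : 0 < l) :
    RR K F (a % m) (d % m) (pat K l a d) =
      if a + K * d < LL K * l ∧ ∀ i : Fin (K + 1), col K l F (a + i.val * d) = col K l F a
        then 1 else 0 := by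
  classical
  unfold RR
  have h1 : ∀ i : Fin (K + 1), ((a % m + i.val * (d % m) : ℕ) : ZMod m) =
      ((a + i.val * d : ℕ) : ZMod m) := by
    intro i
    push_cast
    rw [ZMod.natCast_mod, ZMod.natCast_mod]
  have h2 : pat K l a d (Fin.last K) < LL K ↔ a + K * d < LL K * l := by
    unfold pat
    rw [Fin.val_last, Nat.div_lt_iff_lt_mul hl]
  have h3 : (∀ i : Fin (K + 1), F (ty K (pat K l a d i),
      ((a % m + i.val * (d % m) : ℕ) : ZMod m)) = F (ty K (pat K l a d 0), ((a % m : ℕ) : ZMod m))) ↔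
      ∀ i : Fin (K + 1), col K l F (a + i.val * d) = col K l F a := by
    refine forall_congr' fun i => ?_
    rw [h1 i, ZMod.natCast_mod]
    unfold col pat
    simp
  simp only [h2, h3]

/-- The sum of the indicators over all pairs. -/
noncomputable def MM {m r : ℕ} (K : ℕ) (F : Fin 4 × ZMod m → Fin r) (l : ℕ) : ℝ :=
  ∑ a ∈ range (LL K * l), ∑ d ∈ range (LL K * l), RR K F (a % m) (d % m) (pat K l a d)

theorem MM_eq {m r K l : ℕ} (F : Fin 4 × ZMod m → Fin r) (hl : 0 < l) :
    MM K F l = NN K (col K l F) (LL K * l) + (LL K * l : ℕ) := by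
  classical
  have h1 : ∀ a ∈ range (LL K * l), ∑ d ∈ range (LL K * l),
      RR K F (a % m) (d % m) (pat K l a d) =
      ∑ d ∈ range (LL K * l), ((if (1 ≤ d ∧ a + K * d < LL K * l) ∧
        ∀ i : Fin (K + 1), col K l F (a + i.val * d) = col K l F a then 1 else 0) +
        if d = 0 then (1 : ℝ) else 0) := by
    intro a ha
    rw [mem_range] at ha
    refine sum_congr rfl fun d _ => ?_
    rw [RR_eq F hl]
    by_cases hd : d = 0
    · subst hd
      rw [if_pos ⟨by omega, fun i => by simp⟩, if_neg (by omega), if_pos rfl]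
      norm_num
    · rw [if_neg hd, add_zero]
      have : 1 ≤ d := by omega
      simp only [this, true_and]
  unfold MM
  rw [sum_congr rfl h1]
  have h2 : ∀ a ∈ range (LL K * l), ∑ d ∈ range (LL K * l), ((if (1 ≤ d ∧ a + K * d < LL K * l) ∧
        ∀ i : Fin (K + 1), col K l F (a + i.val * d) = col K l F a then 1 else 0) +
        if d = 0 then (1 : ℝ) else 0) = ∑ d ∈ range (LL K * l),
        (if (1 ≤ d ∧ a + K * d < LL K * l) ∧
        ∀ i : Fin (K + 1), col K l F (a + i.val * d) = col K l F a then 1 else 0) + (1 : ℝ) := by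
    intro a ha
    rw [mem_range] at ha
    rw [sum_add_distrib, sum_ite_eq', if_pos (mem_range.2 (by omega))]
  rw [sum_congr rfl h2, sum_add_distrib, ← sum_product' (range (LL K * l)) (range (LL K * l))
    (fun a d => if (1 ≤ d ∧ a + K * d < LL K * l) ∧
        ∀ i : Fin (K + 1), col K l F (a + i.val * d) = col K l F a then (1 : ℝ) else 0)]
  rw [sum_boole, sum_const, card_range, nsmul_eq_mul, mul_one, NN, APs, filter_filter]

theorem scaling {m r K : ℕ} (hK : 2 ≤ K) (hm : 1 ≤ m) (F : Fin 4 × ZMod m → Fin r) :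
    ∃ δ : ℝ, ∀ t : ℕ, 1 ≤ t → |MM K F (m * t) - δ * t ^ 2| ≤
      (4 * m ^ 2 * ((K + 1) * (LL K * K * LL K))) * t := by
  set H : (Fin (K + 1) → ℕ) → ℝ := fun b => ∑ u ∈ range m, ∑ v ∈ range m, RR K F u v b with hH
  set G : ℕ → ℝ := fun t => ∑ a ∈ range (t * LL K), ∑ d ∈ range (t * LL K), H (pat K t a d) with hG
  have hHb : ∀ b, |H b| ≤ (m : ℝ) ^ 2 := by
    intro b
    rw [hH]
    refine (abs_sum_le_sum_abs _ _).trans ?_
    refine (sum_le_sum fun u _ => (abs_sum_le_sum_abs _ _).trans
      (sum_le_sum fun v _ => RR_abs F u v b)).trans ?_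
    simp only [sum_const, card_range, nsmul_eq_mul]
    apply le_of_eq
    ring
  have hH0 : ∀ b : Fin (K + 1) → ℕ, LL K ≤ b (Fin.last K) → H b = 0 := by
    intro b hb
    rw [hH]
    exact sum_eq_zero fun u _ => sum_eq_zero fun v _ => RR_zero F u v b hb
  obtain ⟨δ, hδ⟩ := conv G (2 * m ^ 2 * ((K + 1) * (LL K * K * LL K))) (by positivity) (by
    intro s t hs ht
    have h1 := box K (LL K) s t (by omega) hs ht (m ^ 2) (fun _ _ b => H b)
      (fun _ _ b => hHb b) (fun _ _ b hb => hH0 b hb)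
    have h2 : ∑ a ∈ range (t * LL K), ∑ d ∈ range (t * LL K), ∑ u ∈ range s, ∑ v ∈ range s,
        H (pat K t a d) = s ^ 2 * G t := by
      rw [hG]
      simp only [sum_const, card_range, nsmul_eq_mul]
      rw [mul_sum]
      refine sum_congr rfl fun a _ => ?_
      rw [mul_sum]
      refine sum_congr rfl fun d _ => ?_
      ring
    have h3 : G (s * t) = ∑ a ∈ range (t * LL K * s), ∑ d ∈ range (t * LL K * s),
        H (pat K (s * t) a d) := by
      have : s * t * LL K = t * LL K * s := by ring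
      rw [hG]
      simp only
      rw [this]
    rw [h3, ← h2]
    exact h1)
  refine ⟨δ, fun t ht => ?_⟩
  have h4 := hδ t ht
  have h5 := box K (LL K) m t (by omega) hm ht 1 (fun u v b => RR K F u v b)
      (fun u v b => RR_abs F u v b) (fun u v b hb => RR_zero F u v b hb)
  have h6 : MM K F (m * t) = ∑ a ∈ range (t * LL K * m), ∑ d ∈ range (t * LL K * m),
      RR K F (a % m) (d % m) (pat K (m * t) a d) := by
    have : LL K * (m * t) = t * LL K * m := by ring
    unfold MM
    rw [this]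
  rw [← h6] at h5
  have e : MM K F (m * t) - δ * t ^ 2 = (MM K F (m * t) - G t) + (G t - δ * t ^ 2) := by ring
  rw [e]
  refine (abs_add_le _ _).trans ?_
  calc |MM K F (m * t) - G t| + |G t - δ * t ^ 2|
      ≤ 2 * 1 * ((K + 1) * (LL K * K * LL K)) * m ^ 2 * t +
        (2 * m ^ 2 * ((K + 1) * (LL K * K * LL K))) * t := add_le_add h5 h4
    _ = _ := by ring

theorem card_APs (K n : ℕ) (hK : 1 ≤ K) : ((APs K n).card : ℝ) ≤ n ^ 2 / (2 * K) := by
  have h1 : (APs K n).card ≤ ∑ d ∈ range (n / K), (n - K * (d + 1)) := by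
    have h2 : APs K n ⊆ (range (n / K)).biUnion fun d =>
        (range (n - K * (d + 1))).map ⟨fun a => (a, d + 1), fun a b h => by simpa using h⟩ := by
      rintro ⟨a, d⟩ h
      rw [APs, mem_filter, mem_product, mem_range, mem_range] at h
      simp only at h
      rw [mem_biUnion]
      have h3 : (d - 1 + 1) * K ≤ n := by
        have : (d - 1 + 1) * K = K * d := by
          rw [mul_comm]; congr 1; omega
        omega
      have h4 : d - 1 + 1 ≤ n / K := (Nat.le_div_iff_mul_le (by omega)).2 h3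
      refine ⟨d - 1, mem_range.2 (by omega), ?_⟩
      rw [mem_map]
      have h5 : d - 1 + 1 = d := by omega
      refine ⟨a, mem_range.2 ?_, ?_⟩
      · rw [h5]; omega
      · show (a, d - 1 + 1) = (a, d)
        rw [h5]
    refine (card_le_card h2).trans (card_biUnion_le.trans ?_)
    refine sum_le_sum fun d _ => ?_
    rw [card_map, card_range]
  have h2 : ((∑ d ∈ range (n / K), (n - K * (d + 1)) : ℕ) : ℝ) =
      ∑ d ∈ range (n / K), ((n : ℝ) - K * (d + 1)) := by
    rw [Nat.cast_sum]
    refine sum_congr rfl fun d hd => ?_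
    rw [mem_range] at hd
    have h3 : (d + 1) * K ≤ n := (Nat.le_div_iff_mul_le (by omega)).1 hd
    rw [Nat.cast_sub (by rw [mul_comm]; exact h3)]
    push_cast
    ring
  have h3 : ∀ D : ℕ, ∑ d ∈ range D, ((n : ℝ) - K * (d + 1)) = n * D - K * (D * (D + 1) / 2) := by
    intro D
    induction D with
    | zero => simp
    | succ D ih =>
      rw [sum_range_succ, ih]
      push_cast
      ring
  have hK' : (0 : ℝ) < K := by exact_mod_cast hK
  have h4 : ((APs K n).card : ℝ) ≤ n * (n / K : ℕ) - K * ((n / K : ℕ) * ((n / K : ℕ) + 1) / 2) := by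
    rw [← h3, ← h2]
    exact_mod_cast h1
  refine h4.trans ?_
  rw [le_div_iff₀ (by positivity)]
  set D : ℝ := ((n / K : ℕ) : ℝ)
  have hD : 0 ≤ D := Nat.cast_nonneg _
  nlinarith [sq_nonneg ((n : ℝ) - K * D), mul_nonneg (mul_nonneg hK'.le hK'.le) hD]

theorem card_dvd (K m t : ℕ) (hm : 1 ≤ m) :
    (((APs K (LL K * (m * t))).filter fun p => m ∣ p.2).card : ℝ) ≤
      (LL K * (m * t) : ℕ) ^ 2 / m := by
  have h1 : ((APs K (LL K * (m * t))).filter fun p => m ∣ p.2) ⊆
      (range (LL K * (m * t))) ×ˢ ((range (LL K * t)).image fun s => m * s) := by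
    rintro ⟨a, d⟩ h
    rw [mem_filter, APs, mem_filter, mem_product, mem_range, mem_range] at h
    simp only at h
    obtain ⟨⟨⟨h2, h3⟩, h4, h5⟩, s, rfl⟩ := h
    rw [mem_product, mem_range, mem_image]
    refine ⟨h2, s, ?_, rfl⟩
    rw [mem_range]
    have h6 : m * s < m * (LL K * t) := by
      calc m * s < LL K * (m * t) := h3
        _ = _ := by ring
    exact Nat.lt_of_mul_lt_mul_left h6
  have h2 := card_le_card h1
  rw [card_product, card_range] at h2
  have h3 : ((range (LL K * t)).image fun s => m * s).card ≤ LL K * t := by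
    refine card_image_le.trans ?_
    rw [card_range]
  have h4 := h2.trans (Nat.mul_le_mul_left _ h3)
  have hm' : (0 : ℝ) < m := by exact_mod_cast hm
  rw [le_div_iff₀ hm']
  have h5 : (((APs K (LL K * (m * t))).filter fun p => m ∣ p.2).card : ℝ) ≤
      ((LL K * (m * t) * (LL K * t) : ℕ) : ℝ) := by exact_mod_cast h4
  calc (((APs K (LL K * (m * t))).filter fun p => m ∣ p.2).card : ℝ) * m
      ≤ ((LL K * (m * t) * (LL K * t) : ℕ) : ℝ) * m := mul_le_mul_of_nonneg_right h5 hm'.le
    _ = _ := by push_cast; ring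

end Pool.Agent.V8H2.AP
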