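import Mathlib
import Pool.Agent.V8H2.AP.Count

/-! # The average number of monochromatic progressions -/

set_option autoImplicit false

namespace Pool.Agent.V8H2.AP

open Finset

/-- The signs of the colours. -/
def sg {r : ℕ} (c : Fin r) : ℝ := if c.val = 0 then 1 else if c.val = 1 then -1 else 0

/-- The weights of the colours. -/
noncomputable def ww {m : ℕ} (r : ℕ) (θ : ℝ) (x : Fin 4 × ZMod m) (c : Fin r) : ℝ :=
  (1 + θ * gam x.1 * sg c) / r

theorem gam_abs (τ : Fin 4) : |gam τ| ≤ 2 := by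
  fin_cases τ <;> simp [gam]

theorem sum_split {r : ℕ} (f : Fin (r + 2) → ℝ) (a : ℝ)
    (h : ∀ c : Fin (r + 2), 2 ≤ c.val → f c = a) : ∑ c, f c = f 0 + f 1 + r * a := by
  rw [Fin.sum_univ_succ, Fin.sum_univ_succ]
  have h1 : ∀ i : Fin r, f i.succ.succ = a := by
    intro i
    apply h
    simp
  rw [sum_congr rfl fun i _ => h1 i, sum_const, card_univ, Fintype.card_fin, nsmul_eq_mul]
  have h2 : (Fin.succ 0 : Fin (r + 2)) = 1 := rfl
  rw [h2]
  ring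

theorem sum_ww {m r : ℕ} (θ : ℝ) (x : Fin 4 × ZMod m) : ∑ c, ww (r + 2) θ x c = 1 := by
  rw [sum_split _ (1 / ((r + 2 : ℕ) : ℝ))]
  · unfold ww sg
    have h : ((r + 2 : ℕ) : ℝ) ≠ 0 := by positivity
    simp only [Fin.val_zero, Fin.val_one, if_true, one_ne_zero, if_false]
    field_simp
    push_cast
    ring
  · intro c hc
    unfold ww sg
    rw [if_neg (by omega), if_neg (by omega), mul_zero, add_zero]

theorem ww_nonneg {m r : ℕ} {θ : ℝ} (h0 : 0 ≤ θ) (h1 : θ ≤ 1 / 2) (x : Fin 4 × ZMod m)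
    (c : Fin r) : 0 ≤ ww r θ x c := by
  unfold ww
  apply div_nonneg _ (Nat.cast_nonneg _)
  have h2 : |sg c| ≤ 1 := by
    unfold sg
    split_ifs <;> simp
  have h3 : |θ * gam x.1 * sg c| ≤ 1 := by
    rw [abs_mul, abs_mul, abs_of_nonneg h0]
    calc θ * |gam x.1| * |sg c| ≤ 1 / 2 * 2 * 1 := by
          apply mul_le_mul _ h2 (abs_nonneg _) (by norm_num)
          exact mul_le_mul h1 (gam_abs _) (abs_nonneg _) (by norm_num)
      _ = 1 := by norm_num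
  have := (abs_le.1 h3).1
  linarith

theorem sum_prod_ww {m r K l : ℕ} {C : ℝ} (hC : ∀ δ : ℝ, 0 ≤ δ → δ ≤ 1 → ∀ u : ℕ → ℝ,
    (∀ i, |u i| ≤ δ) →
    ∏ i ∈ range (K + 1), (1 + u i) + ∏ i ∈ range (K + 1), (1 - u i) ≤
      2 + 2 * ∑ j ∈ range (K + 1), ∑ i ∈ range j, u i * u j + 2 * C * δ ^ 3)
    {θ : ℝ} (h0 : 0 ≤ θ) (h1 : θ ≤ 1 / 2) (a d : ℕ) :
    ∑ c, ∏ i : Fin (K + 1), ww (r + 2) θ
      ((ty K ((a + i.val * d) / l), ((a + i.val * d : ℕ) : ZMod m)) : Fin 4 × ZMod m) c ≤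
    (1 / ((r + 2 : ℕ) : ℝ) ^ (K + 1)) * ((r + 2 : ℕ) +
      2 * θ ^ 2 * (∑ j ∈ range (K + 1), ∑ i ∈ range j,
        ga K l (a + i * d) * ga K l (a + j * d)) + 16 * C * θ ^ 3) := by
  have hr : (0 : ℝ) < ((r + 2 : ℕ) : ℝ) := by positivity
  have e1 : ∀ s : ℝ, ∏ i : Fin (K + 1),
      ((1 + θ * gam (ty K ((a + i.val * d) / l)) * s) / ((r + 2 : ℕ) : ℝ)) =
      (1 / ((r + 2 : ℕ) : ℝ) ^ (K + 1)) *
        ∏ i ∈ range (K + 1), (1 + θ * ga K l (a + i * d) * s) := by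
    intro s
    rw [Finset.prod_range]
    simp only [div_eq_mul_inv, one_mul]
    rw [prod_mul_distrib, prod_const, card_univ, Fintype.card_fin, mul_comm, inv_pow]
    rfl
  rw [sum_split _ (1 / ((r + 2 : ℕ) : ℝ) ^ (K + 1))]
  · unfold ww
    simp only
    rw [e1, e1]
    have e2 : sg (0 : Fin (r + 2)) = 1 := by unfold sg; simp
    have e3 : sg (1 : Fin (r + 2)) = -1 := by unfold sg; simp
    rw [e2, e3]
    have h2 := hC (2 * θ) (by linarith) (by linarith) (fun i => θ * ga K l (a + i * d)) (by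
      intro i
      rw [abs_mul, abs_of_nonneg h0]
      have : |ga K l (a + i * d)| ≤ 2 := gam_abs _
      calc θ * |ga K l (a + i * d)| ≤ θ * 2 := mul_le_mul_of_nonneg_left this h0
        _ = 2 * θ := by ring)
    have e4 : ∑ j ∈ range (K + 1), ∑ i ∈ range j,
        θ * ga K l (a + i * d) * (θ * ga K l (a + j * d)) =
        θ ^ 2 * ∑ j ∈ range (K + 1), ∑ i ∈ range j,
        ga K l (a + i * d) * ga K l (a + j * d) := by
      rw [mul_sum]
      refine sum_congr rfl fun j _ => ?_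
      rw [mul_sum]
      refine sum_congr rfl fun i _ => ?_
      ring
    rw [e4] at h2
    have e5 : ∏ i ∈ range (K + 1), (1 + θ * ga K l (a + i * d) * 1) =
        ∏ i ∈ range (K + 1), (1 + θ * ga K l (a + i * d)) :=
      prod_congr rfl fun i _ => by ring
    have e6 : ∏ i ∈ range (K + 1), (1 + θ * ga K l (a + i * d) * -1) =
        ∏ i ∈ range (K + 1), (1 - θ * ga K l (a + i * d)) :=
      prod_congr rfl fun i _ => by ring
    rw [e5, e6]
    have h3 : 0 ≤ 1 / ((r + 2 : ℕ) : ℝ) ^ (K + 1) := by positivity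
    have h4 := mul_le_mul_of_nonneg_left h2 h3
    calc 1 / ((r + 2 : ℕ) : ℝ) ^ (K + 1) * ∏ i ∈ range (K + 1), (1 + θ * ga K l (a + i * d)) +
        1 / ((r + 2 : ℕ) : ℝ) ^ (K + 1) * ∏ i ∈ range (K + 1), (1 - θ * ga K l (a + i * d)) +
        r * (1 / ((r + 2 : ℕ) : ℝ) ^ (K + 1)) =
        1 / ((r + 2 : ℕ) : ℝ) ^ (K + 1) * (∏ i ∈ range (K + 1), (1 + θ * ga K l (a + i * d)) +
        ∏ i ∈ range (K + 1), (1 - θ * ga K l (a + i * d))) +
        r * (1 / ((r + 2 : ℕ) : ℝ) ^ (K + 1)) := by ring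
      _ ≤ 1 / ((r + 2 : ℕ) : ℝ) ^ (K + 1) * (2 + 2 * (θ ^ 2 *
        ∑ j ∈ range (K + 1), ∑ i ∈ range j,
          ga K l (a + i * d) * ga K l (a + j * d)) + 2 * C * (2 * θ) ^ 3) +
          r * (1 / ((r + 2 : ℕ) : ℝ) ^ (K + 1)) := by linarith
      _ = _ := by push_cast; ring
  · intro c hc
    unfold ww
    have e2 : sg c = 0 := by unfold sg; rw [if_neg (by omega), if_neg (by omega)]
    rw [e2, e1 0]
    have e5 : ∏ i ∈ range (K + 1), (1 + θ * ga K l (a + i * d) * 0) = 1 :=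
      prod_eq_one fun i _ => by ring
    rw [e5, mul_one]

theorem avg {m r K t : ℕ} (hm : m.Prime) (hmK : K < m) {C : ℝ} (hC : ∀ δ : ℝ, 0 ≤ δ → δ ≤ 1 →
    ∀ u : ℕ → ℝ, (∀ i, |u i| ≤ δ) →
    ∏ i ∈ range (K + 1), (1 + u i) + ∏ i ∈ range (K + 1), (1 - u i) ≤
      2 + 2 * ∑ j ∈ range (K + 1), ∑ i ∈ range j, u i * u j + 2 * C * δ ^ 3)
    (hC0 : 0 ≤ C) {θ : ℝ} (h0 : 0 ≤ θ) (h1 : θ ≤ 1 / 2) (hK : 2 ≤ K) (ht : 0 < t)
    (hdvd : ∀ q, 1 ≤ q → q ≤ K → q ∣ t) [NeZero m] :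
    ∑ F : Fin 4 × ZMod m → Fin (r + 2), wt (ww (r + 2) θ) F *
      (NN K (col K (m * t) F) (LL K * (m * t)) : ℝ) ≤
    ((LL K * (m * t) : ℕ) : ℝ) ^ 2 * (1 / (2 * K * ((r + 2 : ℕ) : ℝ) ^ K) -
      (1 / ((r + 2 : ℕ) : ℝ) ^ (K + 1)) * (2 * θ ^ 2 / (LL K) ^ 2 - 8 * C * θ ^ 3 / K) + 1 / m) := by
  classical
  set l := m * t with hl
  set n := LL K * l with hn
  have hlpos : 0 < l := Nat.mul_pos hm.pos ht
  have hr : (0 : ℝ) < ((r + 2 : ℕ) : ℝ) := by positivity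
  have hK' : (0 : ℝ) < K := by exact_mod_cast (by omega : 0 < K)
  set P : ℝ := 1 / ((r + 2 : ℕ) : ℝ) ^ (K + 1) with hP
  have hP0 : 0 ≤ P := by positivity
  -- exchange the sums
  have e1 : ∑ F : Fin 4 × ZMod m → Fin (r + 2), wt (ww (r + 2) θ) F * (NN K (col K l F) n : ℝ) =
      ∑ p ∈ APs K n, ∑ F : Fin 4 × ZMod m → Fin (r + 2), wt (ww (r + 2) θ) F *
        (if ∀ i : Fin (K + 1), col K l F (p.1 + i.val * p.2) = col K l F p.1 then 1 else 0) := by
    rw [sum_comm]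
    refine sum_congr rfl fun F _ => ?_
    rw [← mul_sum, sum_boole]
    rfl
  rw [e1]
  have key : ∀ p ∈ APs K n, ∑ F : Fin 4 × ZMod m → Fin (r + 2), wt (ww (r + 2) θ) F *
        (if ∀ i : Fin (K + 1), col K l F (p.1 + i.val * p.2) = col K l F p.1 then 1 else 0) ≤
      P * ((r + 2 : ℕ) + 2 * θ ^ 2 * (∑ j ∈ range (K + 1), ∑ i ∈ range j,
        ga K l (p.1 + i * p.2) * ga K l (p.1 + j * p.2)) + 16 * C * θ ^ 3) +
        (if m ∣ p.2 then 1 else 0) := by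
    rintro ⟨a, d⟩ hp
    simp only
    have h2 := sum_prod_ww (m := m) (r := r) (l := l) hC h0 h1 a d
    have h3 : 0 ≤ ∑ c, ∏ i : Fin (K + 1), ww (r + 2) θ
      ((ty K ((a + i.val * d) / l), ((a + i.val * d : ℕ) : ZMod m)) : Fin 4 × ZMod m) c :=
      sum_nonneg fun c _ => prod_nonneg fun i _ => ww_nonneg h0 h1 _ _
    by_cases hmd : m ∣ d
    · rw [if_pos hmd]
      have h4 := sum_wt_mono_le (w := ww (m := m) (r + 2) θ) (sum_ww θ) (ww_nonneg h0 h1)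
        (fun F => ∀ i : Fin (K + 1), col K l F (a + i.val * d) = col K l F a)
      linarith
    · rw [if_neg hmd, add_zero]
      refine le_trans (le_of_eq ?_) h2
      have hinj : Function.Injective fun i : Fin (K + 1) =>
          ((ty K ((a + i.val * d) / l), ((a + i.val * d : ℕ) : ZMod m)) : Fin 4 × ZMod m) := by
        intro i j hij
        simp only [Prod.mk.injEq] at hij
        have h5 := hij.2
        rw [ZMod.natCast_eq_natCast_iff] at h5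
        have h6 : i.val * d ≡ j.val * d [MOD m] := Nat.ModEq.add_left_cancel' a h5
        have h7 : i.val ≡ j.val [MOD m] :=
          Nat.ModEq.cancel_right_of_coprime ((Nat.Prime.coprime_iff_not_dvd hm).2 hmd) h6
        have h8 : i.val = j.val := Nat.ModEq.eq_of_lt_of_lt h7 (by omega) (by omega)
        exact Fin.ext h8
      rw [← sum_wt_mono (w := ww (m := m) (r + 2) θ) (sum_ww θ) _ hinj]
      refine sum_congr rfl fun F _ => ?_
      congr 1
      have h9 : ∀ x : ℕ, col K l F x = F (ty K (x / l), ((x : ℕ) : ZMod m)) := fun x => rfl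
      simp only [h9, Fin.val_zero, zero_mul, add_zero]
  refine (sum_le_sum key).trans ?_
  rw [sum_add_distrib, ← mul_sum, sum_add_distrib, sum_add_distrib, sum_const, sum_const,
    ← mul_sum, sum_boole, nsmul_eq_mul, nsmul_eq_mul]
  have hq := quad_neg hK hlpos (fun q h2 h3 => (hdvd q h2 h3).mul_left m)
  rw [← hn] at hq
  have hc := card_APs K n (by omega)
  have hd := card_dvd K m t hm.one_lt.le
  rw [← hl, ← hn] at hd
  have hLL : (0 : ℝ) < LL K := by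
    have : 0 < LL K := by unfold LL; positivity
    exact_mod_cast this
  have hln : (l : ℝ) ^ 2 = (n : ℝ) ^ 2 / (LL K) ^ 2 := by
    rw [hn]
    push_cast
    field_simp
  have h5 : 2 * θ ^ 2 * ∑ p ∈ APs K n, ∑ j ∈ range (K + 1), ∑ i ∈ range j,
        ga K l (p.1 + i * p.2) * ga K l (p.1 + j * p.2) ≤ 2 * θ ^ 2 * (-(l : ℝ) ^ 2) :=
    mul_le_mul_of_nonneg_left hq (by positivity)
  have h6 : ((APs K n).card : ℝ) * ((r + 2 : ℕ) : ℝ) ≤ n ^ 2 / (2 * K) * ((r + 2 : ℕ) : ℝ) :=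
    mul_le_mul_of_nonneg_right hc hr.le
  have h7 : ((APs K n).card : ℝ) * (16 * C * θ ^ 3) ≤ n ^ 2 / (2 * K) * (16 * C * θ ^ 3) :=
    mul_le_mul_of_nonneg_right hc (by positivity)
  have h8 : P * (((APs K n).card : ℝ) * ((r + 2 : ℕ) : ℝ) + 2 * θ ^ 2 * ∑ p ∈ APs K n,
      ∑ j ∈ range (K + 1), ∑ i ∈ range j, ga K l (p.1 + i * p.2) * ga K l (p.1 + j * p.2) +
      ((APs K n).card : ℝ) * (16 * C * θ ^ 3)) ≤
      P * (n ^ 2 / (2 * K) * ((r + 2 : ℕ) : ℝ) + 2 * θ ^ 2 * (-(l : ℝ) ^ 2) +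
        n ^ 2 / (2 * K) * (16 * C * θ ^ 3)) := by
    apply mul_le_mul_of_nonneg_left _ hP0
    linarith
  refine (add_le_add h8 hd).trans (le_of_eq ?_)
  rw [hln, hP]
  have hm' : (0 : ℝ) < m := by exact_mod_cast hm.pos
  field_simp
  ring

end Pool.Agent.V8H2.AP
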