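import Mathlib
import Pool.Agent.V8H2.AP.Avg

/-! # Structured colourings with fewer monochromatic progressions than random colourings -/

set_option autoImplicit false

namespace Pool.Agent.V8H2.AP

open Finset

theorem LL_pos (K : ℕ) : 0 < LL K := by unfold LL; positivity

theorem exists_good (K r : ℕ) (hK : 2 ≤ K) : ∃ m : ℕ, 1 ≤ m ∧
    ∃ F : Fin 4 × ZMod m → Fin (r + 2), ∃ δ C : ℝ, 0 ≤ C ∧
      δ < ((LL K : ℝ) * m) ^ 2 * (1 / (2 * K * ((r + 2 : ℕ) : ℝ) ^ K)) ∧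
      ∀ t : ℕ, 1 ≤ t → |MM K F (m * t) - δ * t ^ 2| ≤ C * t := by
  classical
  obtain ⟨C, hC0, hC⟩ := prod_two (K + 1)
  have hL : (0 : ℝ) < LL K := by exact_mod_cast LL_pos K
  have hr : (0 : ℝ) < ((r + 2 : ℕ) : ℝ) := by positivity
  have hK' : (2 : ℝ) ≤ K := by exact_mod_cast hK
  set θ : ℝ := 1 / (2 + 8 * C * (LL K) ^ 2) with hθ
  have hden : 0 < 2 + 8 * C * (LL K : ℝ) ^ 2 := by positivity
  have hθ0 : 0 < θ := by positivity
  have hθ1 : θ ≤ 1 / 2 := by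
    rw [hθ]
    apply one_div_le_one_div_of_le (by norm_num)
    have : 0 ≤ 8 * C * (LL K : ℝ) ^ 2 := by positivity
    linarith
  have hθ2 : 8 * C * θ * (LL K) ^ 2 ≤ 1 := by
    have : θ * (2 + 8 * C * (LL K) ^ 2) = 1 := by rw [hθ]; field_simp
    nlinarith
  set P : ℝ := 1 / ((r + 2 : ℕ) : ℝ) ^ (K + 1) with hP
  have hP0 : 0 < P := by positivity
  set η : ℝ := P * (θ ^ 2 / (LL K) ^ 2) with hη
  have hη0 : 0 < η := by positivity
  have h1 : η ≤ P * (2 * θ ^ 2 / (LL K) ^ 2 - 8 * C * θ ^ 3 / K) := by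
    rw [hη]
    apply mul_le_mul_of_nonneg_left _ hP0.le
    have h2 : 8 * C * θ ^ 3 / K ≤ θ ^ 2 / (LL K) ^ 2 := by
      rw [div_le_div_iff₀ (by linarith) (by positivity)]
      calc 8 * C * θ ^ 3 * (LL K) ^ 2 = θ ^ 2 * (8 * C * θ * (LL K) ^ 2) := by ring
        _ ≤ θ ^ 2 * 1 := mul_le_mul_of_nonneg_left hθ2 (by positivity)
        _ ≤ θ ^ 2 * K := mul_le_mul_of_nonneg_left (by linarith) (by positivity)
    have h3 : 2 * θ ^ 2 / (LL K : ℝ) ^ 2 = θ ^ 2 / (LL K) ^ 2 + θ ^ 2 / (LL K) ^ 2 := by ring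
    linarith
  -- the prime
  obtain ⟨m, hm1, hm⟩ := Nat.exists_infinite_primes (max (K + 1) (⌈4 / η⌉₊))
  have : NeZero m := ⟨hm.pos.ne'⟩
  have hmK : K < m := lt_of_lt_of_le (Nat.lt_succ_self K) ((le_max_left _ _).trans hm1)
  have hm' : (0 : ℝ) < m := by exact_mod_cast hm.pos
  have hm2 : (1 : ℝ) / m ≤ η / 4 := by
    have h2 : 4 / η ≤ m := (Nat.le_ceil _).trans (by exact_mod_cast (le_max_right _ _).trans hm1)
    rw [div_le_iff₀ hη0] at h2
    rw [div_le_div_iff₀ hm' (by norm_num)]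
    linarith
  set Cb : ℝ := 4 * m ^ 2 * ((K + 1) * (LL K * K * LL K)) with hCb
  have hCb0 : 0 ≤ Cb := by positivity
  obtain ⟨s, hs⟩ := exists_nat_gt ((LL K * m + Cb) / (((LL K : ℝ) * m) ^ 2 * (3 * η / 4)))
  set t : ℕ := K.factorial * (s + 1) with ht
  have htpos : 0 < t := Nat.mul_pos (Nat.factorial_pos K) (Nat.succ_pos s)
  have hst : (s : ℝ) ≤ t := by
    have : s + 1 ≤ t := Nat.le_mul_of_pos_left _ (Nat.factorial_pos K)
    exact_mod_cast (Nat.le_succ s).trans this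
  have hdvd : ∀ q, 1 ≤ q → q ≤ K → q ∣ t := fun q h2 h3 =>
    (Nat.dvd_factorial h2 h3).mul_right _
  have havg := avg (r := r) (t := t) hm hmK hC hC0 hθ0.le hθ1 hK htpos hdvd
  obtain ⟨F, hF⟩ := exists_le_avg (w := ww (m := m) (r + 2) θ) (sum_ww θ)
    (ww_nonneg hθ0.le hθ1) _ _ havg
  obtain ⟨δ, hδ⟩ := scaling hK hm.one_lt.le F
  refine ⟨m, hm.one_lt.le, F, δ, Cb, hCb0, ?_, hδ⟩
  have h2 := (abs_le.1 (hδ t htpos)).1
  rw [← hCb, MM_eq F (Nat.mul_pos hm.pos htpos)] at h2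
  have htR : (0 : ℝ) < t := by exact_mod_cast htpos
  set ρ : ℝ := 1 / (2 * K * ((r + 2 : ℕ) : ℝ) ^ K) with hρ
  have h3 : (NN K (col K (m * t) F) (LL K * (m * t)) : ℝ) ≤
      ((LL K * (m * t) : ℕ) : ℝ) ^ 2 * (ρ - 3 * η / 4) := by
    refine hF.trans (mul_le_mul_of_nonneg_left ?_ (by positivity))
    linarith
  have h4 : ((LL K * (m * t) : ℕ) : ℝ) = ((LL K : ℝ) * m) * t := by push_cast; ring
  rw [h4] at h2 h3
  rw [div_lt_iff₀ (by positivity)] at hs
  have h5 : LL K * m + Cb < t * (((LL K : ℝ) * m) ^ 2 * (3 * η / 4)) :=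
    hs.trans_le (mul_le_mul_of_nonneg_right hst (by positivity))
  have h6 : δ * t ^ 2 < (((LL K : ℝ) * m) ^ 2 * ρ) * t ^ 2 := by
    have h7 : t * (LL K * m + Cb) < t * (t * (((LL K : ℝ) * m) ^ 2 * (3 * η / 4))) :=
      mul_lt_mul_of_pos_left h5 htR
    nlinarith
  exact lt_of_mul_lt_mul_right h6 (by positivity)

theorem NN_diff {r K : ℕ} (hK : 1 ≤ K) (χ : ℕ → Fin r) {N n : ℕ} (h : N ≤ n) :
    NN K χ N ≤ NN K χ n ∧ NN K χ n ≤ NN K χ N + (n - N) * n := by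
  classical
  have hsub : APs K N ⊆ APs K n := by
    intro p hp
    rw [APs, mem_filter, mem_product, mem_range, mem_range] at hp ⊢
    exact ⟨⟨by omega, by omega⟩, hp.2.1, by omega⟩
  refine ⟨card_le_card (filter_subset_filter _ hsub), ?_⟩
  have h1 : (APs K n).filter (fun p => ∀ i : Fin (K + 1), χ (p.1 + i.val * p.2) = χ p.1) ⊆
      (APs K N).filter (fun p => ∀ i : Fin (K + 1), χ (p.1 + i.val * p.2) = χ p.1) ∪
      (APs K n).filter (fun p => N ≤ p.1 + K * p.2) := by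
    intro p hp
    rw [mem_filter] at hp
    rw [mem_union, mem_filter, mem_filter]
    by_cases h2 : N ≤ p.1 + K * p.2
    · exact Or.inr ⟨hp.1, h2⟩
    · left
      refine ⟨?_, hp.2⟩
      have h3 := hp.1
      rw [APs, mem_filter, mem_product, mem_range, mem_range] at h3 ⊢
      have h4 : p.2 ≤ K * p.2 := Nat.le_mul_of_pos_left _ (by omega)
      exact ⟨⟨by omega, by omega⟩, h3.2.1, by omega⟩
  refine (card_le_card h1).trans ((card_union_le _ _).trans ?_)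
  apply Nat.add_le_add_left
  have h2 : ((APs K n).filter (fun p => N ≤ p.1 + K * p.2)).card ≤
      ((Finset.Ico N n) ×ˢ (range n)).card := by
    refine Finset.card_le_card_of_injOn (fun p => (p.1 + K * p.2, p.2)) ?_ ?_
    · intro p hp
      rw [mem_coe, mem_filter, APs, mem_filter, mem_product, mem_range, mem_range] at hp
      rw [mem_coe, mem_product, mem_Ico, mem_range]
      exact ⟨⟨hp.2, hp.1.2.2⟩, hp.1.1.2⟩
    · rintro ⟨a, d⟩ _ ⟨a', d'⟩ _ h
      simp only [Prod.mk.injEq] at h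
      obtain ⟨h4, rfl⟩ := h
      rw [Prod.mk.injEq]
      exact ⟨by omega, rfl⟩
  rwa [card_product, Nat.card_Ico, card_range] at h2

theorem main0 (K r : ℕ) (hK : 2 ≤ K) :
    ∃ δ : ℝ, δ < 1 / (2 * K * ((r + 2 : ℕ) : ℝ) ^ K) ∧ ∃ χ : ℕ → ℕ → Fin (r + 2), ∃ C : ℝ,
      ∀ n : ℕ, |(NN K (χ n) n : ℝ) - δ * n ^ 2| ≤ C * n := by
  obtain ⟨m, hm, F, δ, C, hC, hδ, h⟩ := exists_good K r hK
  have hL : (0 : ℝ) < LL K := by exact_mod_cast LL_pos K
  have hm' : (0 : ℝ) < m := by exact_mod_cast hm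
  set Q : ℕ := LL K * m with hQ
  have hQpos : 0 < Q := Nat.mul_pos (LL_pos K) hm
  have hQ' : (0 : ℝ) < Q := by exact_mod_cast hQpos
  have hQr : (Q : ℝ) = (LL K : ℝ) * m := by rw [hQ]; push_cast; ring
  refine ⟨δ / Q ^ 2, ?_, fun n => col K (m * (n / Q)) F, Q + 1 + C + 2 * |δ| / Q, fun n => ?_⟩
  · rw [div_lt_iff₀ (by positivity), hQr, mul_comm]
    exact hδ
  · set t := n / Q with ht
    have h1 : Q * t ≤ n := Nat.mul_div_le n Q
    have h2 : n < Q * t + Q := Nat.lt_mul_div_succ n hQpos |>.trans_eq (by ring)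
    have hn0 : (0 : ℝ) ≤ n := Nat.cast_nonneg n
    have h1' : (Q : ℝ) * t ≤ n := by exact_mod_cast h1
    have h2' : (n : ℝ) ≤ Q * t + Q := by exact_mod_cast h2.le
    have hQ1 : (1 : ℝ) ≤ Q := by exact_mod_cast hQpos
    have ht0 : (0 : ℝ) ≤ t := Nat.cast_nonneg t
    have htn : (t : ℝ) ≤ n := by nlinarith
    set N := LL K * (m * t) with hN
    have hNQ : N = Q * t := by rw [hN, hQ]; ring
    obtain ⟨h3, h4⟩ := NN_diff (K := K) (by omega) (col K (m * t) F) (hNQ.trans_le h1)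
    have h3' : (NN K (col K (m * t) F) N : ℝ) ≤ NN K (col K (m * t) F) n := by exact_mod_cast h3
    have h4' : (NN K (col K (m * t) F) n : ℝ) ≤ NN K (col K (m * t) F) N + Q * n := by
      have h5 : n - N ≤ Q := by omega
      have h6 := h4.trans (Nat.add_le_add_left (Nat.mul_le_mul_right n h5) _)
      exact_mod_cast h6
    -- the main estimate
    have h5 : |(NN K (col K (m * t) F) N : ℝ) + Q * t - δ * t ^ 2| ≤ C * t := by
      rcases Nat.eq_zero_or_pos t with h0 | hpos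
      · have e : N = 0 := by rw [hNQ, h0, mul_zero]
        rw [e, h0]
        simp [NN, APs]
      · have h6 := h t hpos
        rw [MM_eq F (Nat.mul_pos hm hpos), ← hN] at h6
        have e : (N : ℝ) = Q * t := by rw [hNQ]; push_cast; ring
        rw [e] at h6
        exact h6
    have e1 : δ / (Q : ℝ) ^ 2 * (n : ℝ) ^ 2 - δ * t ^ 2 =
        δ / (Q : ℝ) ^ 2 * ((n - Q * t) * (n + Q * t)) := by
      field_simp
      ring
    have h6 : |δ / (Q : ℝ) ^ 2 * (n : ℝ) ^ 2 - δ * t ^ 2| ≤ 2 * |δ| / Q * n := by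
      rw [e1, abs_mul, abs_div, abs_of_pos (by positivity : (0 : ℝ) < (Q : ℝ) ^ 2)]
      have h7 : |((n : ℝ) - Q * t) * (n + Q * t)| ≤ Q * (2 * n) := by
        rw [abs_mul]
        apply mul_le_mul
        · rw [abs_le]
          constructor <;> linarith
        · rw [abs_of_nonneg (by positivity)]
          linarith
        · exact abs_nonneg _
        · exact hQ'.le
      calc |δ| / (Q : ℝ) ^ 2 * |((n : ℝ) - Q * t) * (n + Q * t)|
          ≤ |δ| / (Q : ℝ) ^ 2 * (Q * (2 * n)) := mul_le_mul_of_nonneg_left h7 (by positivity)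
        _ = _ := by field_simp
    have h8 := abs_le.1 h5
    have h9 := abs_le.1 h6
    have h10 : C * t ≤ C * n := mul_le_mul_of_nonneg_left htn hC
    have h11 : (Q + 1 + C + 2 * |δ| / Q) * n = Q * n + n + C * n + 2 * |δ| / Q * n := by ring
    show |(NN K (col K (m * t) F) n : ℝ) - δ / (Q : ℝ) ^ 2 * (n : ℝ) ^ 2| ≤ _
    rw [h11, abs_le]
    constructor
    · have : 0 ≤ (Q : ℝ) * n := by positivity
      linarith
    · have : 0 ≤ (Q : ℝ) * t := by positivity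
      linarith

end Pool.Agent.V8H2.AP
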